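import Mathlib

set_option autoImplicit false

namespace Pool.Agent.Lib.MP_cdd7b4_an.H85

open MeasureTheory

universe u

/-- `Y` contains a copy of `Z` (both normed spaces over `𝕜`): there is a bounded linear map
`T : Z → Y` with `c ‖z‖ ≤ ‖T z‖` for some `c > 0` and all `z`. -/
def ContainsCopy (𝕜 : Type*) [RCLike 𝕜] (Y : Type*) [NormedAddCommGroup Y] [NormedSpace 𝕜 Y]
    (Z : Type*) [NormedAddCommGroup Z] [NormedSpace 𝕜 Z] : Prop :=
  ∃ T : Z →L[𝕜] Y, ∃ c : ℝ, 0 < c ∧ ∀ z, c * ‖z‖ ≤ ‖T z‖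

/-- The Lebesgue-Bochner space `L¹([0,1], X)`. -/
abbrev L1I (X : Type*) [NormedAddCommGroup X] : Type _ :=
  Lp X 1 (volume.restrict (Set.Icc (0:ℝ) 1))

/-- The space `ℓ²(X)`. -/
abbrev ell2 (X : Type*) [NormedAddCommGroup X] : Type _ := lp (fun _ : ℕ => X) 2

/-- `X` is isomorphic to a Hilbert space. -/
def IsHilbertian (𝕜 : Type*) [RCLike 𝕜] (X : Type u) [NormedAddCommGroup X] [NormedSpace 𝕜 X] :
    Prop :=
  ∃ (H : Type u) (_ : NormedAddCommGroup H) (_ : InnerProductSpace 𝕜 H) (_ : CompleteSpace H),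
    Nonempty (X ≃L[𝕜] H)

end Pool.Agent.Lib.MP_cdd7b4_an.H85
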