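import Pool.Agent.Lib.MP_cdd7b4_an.H85.Sep

set_option autoImplicit false

namespace Pool.Agent.Lib.MP_cdd7b4_an.H85

open Set
open scoped BigOperators

universe u

/-- A copy of a vector space, to carry another norm. -/
def HCopy (X : Type u) : Type u := X

noncomputable instance {X : Type u} [h : AddCommGroup X] : AddCommGroup (HCopy X) := h
noncomputable instance {𝕜 : Type*} [Semiring 𝕜] {X : Type u} [AddCommGroup X] [h : Module 𝕜 X] :
    Module 𝕜 (HCopy X) := h

section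
variable {𝕜 : Type*} [RCLike 𝕜] {X : Type u} [NormedAddCommGroup X] [NormedSpace 𝕜 X]

theorem renorm [CompleteSpace X] (N : X → ℝ) (h0 : N 0 = 0) (hadd : ∀ x y, N (x + y) ≤ N x + N y)
    (hsmul : ∀ (c : 𝕜) x, N (c • x) = ‖c‖ * N x)
    (hpar : ∀ x y, N (x + y) ^ 2 + N (x - y) ^ 2 = 2 * (N x ^ 2 + N y ^ 2))
    (C : ℝ) (hlow : ∀ x, ‖x‖ ≤ N x) (hup : ∀ x, N x ≤ C * ‖x‖) :
    ∃ (E : Type u) (_ : NormedAddCommGroup E) (_ : InnerProductSpace 𝕜 E) (_ : CompleteSpace E),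
      Nonempty (X ≃L[𝕜] E) := by
  have hneg : ∀ x, N (-x) = N x := by
    intro x
    have := hsmul (-1) x
    simpa using this
  letI i1 : NormedAddCommGroup (HCopy X) := AddGroupNorm.toNormedAddCommGroup
    { toFun := N
      map_zero' := h0
      add_le' := hadd
      neg' := hneg
      eq_zero_of_map_eq_zero' := fun x hx => by
        have := hlow x
        rw [hx] at this
        exact norm_le_zero_iff.1 this }
  letI i2 : NormedSpace 𝕜 (HCopy X) :=
    { (inferInstance : Module 𝕜 (HCopy X)) with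
      norm_smul_le := fun c x => (hsmul c x).le }
  letI i3 : InnerProductSpace 𝕜 (HCopy X) := InnerProductSpace.ofNorm (𝕜 := 𝕜) (E := HCopy X)
    (fun x y => by
      have := hpar x y
      have e : ∀ z : HCopy X, ‖z‖ = N z := fun z => rfl
      rw [e, e, e, e]
      have e1 : (N (x + y) : ℝ) * N (x + y) = N (x + y) ^ 2 := (sq _).symm
      have e2 : (N (x - y) : ℝ) * N (x - y) = N (x - y) ^ 2 := (sq _).symm
      have e3 : (N x : ℝ) * N x = N x ^ 2 := (sq _).symm
      have e4 : (N y : ℝ) * N y = N y ^ 2 := (sq _).symm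
      rw [e3, e4]
      refine Eq.trans ?_ this
      exact congrArg₂ (· + ·) e1 e2)
  let e0 : X ≃ₗ[𝕜] HCopy X := LinearEquiv.refl 𝕜 X
  let e : X ≃L[𝕜] HCopy X := e0.toContinuousLinearEquivOfBounds C 1 (fun x => hup x)
    (fun x => by rw [one_mul]; exact hlow x)
  refine ⟨HCopy X, i1, i3, ?_, ⟨?_⟩⟩
  · exact (completeSpace_congr (e := e.toEquiv) e.isUniformEmbedding).1 inferInstance
  · exact e

theorem hilbert_of_sums [CompleteSpace X] {K : ℝ}
    (H : ∀ (M M' : ℕ) (x : Fin M → X) (y : Fin M' → X),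
      (∀ ξ : X →ₗ[𝕜] 𝕜, ∑ i, ‖ξ (x i)‖ ^ 2 ≤ ∑ j, ‖ξ (y j)‖ ^ 2) →
        ∑ i, ‖x i‖ ^ 2 ≤ K * ∑ j, ‖y j‖ ^ 2) :
    ∃ (E : Type u) (_ : NormedAddCommGroup E) (_ : InnerProductSpace 𝕜 E) (_ : CompleteSpace E),
      Nonempty (X ≃L[𝕜] E) := by
  classical
  obtain ⟨g, hg⟩ := exists_functional H
  have Qs : ∀ (ξ : X →ₗ[𝕜] 𝕜) (x : X) (r : ℝ), Qf ξ (Finsupp.single x r) = r * ‖ξ x‖ ^ 2 := by
    intro ξ x r
    simp [Qf]
  have Qns : ∀ (x : X) (r : ℝ), Qn X (Finsupp.single x r) = r * ‖x‖ ^ 2 := by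
    intro x r
    simp [Qn]
  have hsn : ∀ x y : X, (0:ℝ) ≤ (Finsupp.single x (1:ℝ)) y := by
    intro x y
    rw [Finsupp.single_apply]
    split_ifs <;> norm_num
  -- monotonicity
  have mono : ∀ v v' : X →₀ ℝ, (∀ ξ : X →ₗ[𝕜] 𝕜, Qf ξ v ≤ Qf ξ v') → g v ≤ g v' := by
    intro v v' h
    have : g (v - v') ≤ 0 := by
      refine hg _ _ ⟨0, 0, by simp, by simp, fun ξ => ?_, by simp⟩
      rw [map_sub, map_zero]
      linarith [h ξ]
    rw [map_sub] at this
    linarith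
  have meq : ∀ v v' : X →₀ ℝ, (∀ ξ : X →ₗ[𝕜] 𝕜, Qf ξ v = Qf ξ v') → g v = g v' :=
    fun v v' h => le_antisymm (mono v v' (fun ξ => (h ξ).le)) (mono v' v (fun ξ => (h ξ).ge))
  set G : X → ℝ := fun x => g (Finsupp.single x 1) with hG
  have Gup : ∀ x, G x ≤ K * ‖x‖ ^ 2 := by
    intro x
    refine hg _ _ ⟨Finsupp.single x 1, 0, hsn x, by simp, fun ξ => by simp, ?_⟩
    rw [Qns]; simp
  have Glow : ∀ x, ‖x‖ ^ 2 ≤ G x := by
    intro x
    have : g (- Finsupp.single x 1) ≤ - ‖x‖ ^ 2 := by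
      refine hg _ _ ⟨0, Finsupp.single x 1, by simp, hsn x, fun ξ => by simp, ?_⟩
      rw [Qns]; simp
    rw [map_neg] at this
    simp only [hG]
    linarith
  have G0 : ∀ x, 0 ≤ G x := fun x => (sq_nonneg _).trans (Glow x)
  have Gsmul : ∀ (c : 𝕜) x, G (c • x) = ‖c‖ ^ 2 * G x := by
    intro c x
    have : g (Finsupp.single (c • x) 1) = g (‖c‖ ^ 2 • Finsupp.single x 1) := by
      apply meq
      intro ξ
      rw [map_smul, Qs, Qs, map_smul, smul_eq_mul, norm_mul, smul_eq_mul]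
      ring
    simp only [hG]
    rw [this, map_smul, smul_eq_mul]
  have Gpar : ∀ x y, G (x + y) + G (x - y) = 2 * (G x + G y) := by
    intro x y
    have : g (Finsupp.single (x + y) 1 + Finsupp.single (x - y) 1)
        = g ((2:ℝ) • (Finsupp.single x 1 + Finsupp.single y 1)) := by
      apply meq
      intro ξ
      rw [map_smul, map_add, map_add, Qs, Qs, Qs, Qs, map_add, map_sub, smul_eq_mul]
      have := parallelogram_law_with_norm 𝕜 (ξ x) (ξ y)
      simp only [one_mul, sq]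
      linarith
    rw [map_smul, map_add, map_add, smul_eq_mul] at this
    exact this
  have Gt : ∀ x y, ∀ t : ℝ, 0 < t → G (x + y) ≤ (1 + t) * G x + (1 + t⁻¹) * G y := by
    intro x y t ht
    have : g (Finsupp.single (x + y) 1)
        ≤ g ((1 + t) • Finsupp.single x 1 + (1 + t⁻¹) • Finsupp.single y 1) := by
      apply mono
      intro ξ
      rw [map_add, map_smul, map_smul, Qs, Qs, Qs, map_add, smul_eq_mul, smul_eq_mul]
      simp only [one_mul]
      have h1 : ‖ξ x + ξ y‖ ≤ ‖ξ x‖ + ‖ξ y‖ := norm_add_le _ _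
      have h2 : ‖ξ x + ξ y‖ ^ 2 ≤ (‖ξ x‖ + ‖ξ y‖) ^ 2 := pow_le_pow_left₀ (norm_nonneg _) h1 2
      refine h2.trans ?_
      have h3 : 0 ≤ t⁻¹ * (t * ‖ξ x‖ - ‖ξ y‖) ^ 2 := by positivity
      have h4 : t⁻¹ * (t * ‖ξ x‖ - ‖ξ y‖) ^ 2 = t * ‖ξ x‖ ^ 2 - 2 * ‖ξ x‖ * ‖ξ y‖
          + t⁻¹ * ‖ξ y‖ ^ 2 := by
        field_simp
        ring
      nlinarith
    rw [map_add, map_smul, map_smul, smul_eq_mul, smul_eq_mul] at this
    exact this
  refine renorm (𝕜 := 𝕜) (fun x => Real.sqrt (G x)) ?_ ?_ ?_ ?_ (Real.sqrt K) ?_ ?_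
  · have : G 0 = 0 := by
      have := Gsmul 0 0
      simpa using this
    simp [this]
  · intro x y
    show Real.sqrt (G (x + y)) ≤ Real.sqrt (G x) + Real.sqrt (G y)
    by_cases hx : G x = 0
    · have : x = 0 := by
        have := Glow x
        rw [hx] at this
        exact norm_eq_zero.1 (pow_eq_zero_iff two_ne_zero |>.1 (le_antisymm this (sq_nonneg _)))
      subst this
      simp [hx]
    by_cases hy : G y = 0
    · have : y = 0 := by
        have := Glow y
        rw [hy] at this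
        exact norm_eq_zero.1 (pow_eq_zero_iff two_ne_zero |>.1 (le_antisymm this (sq_nonneg _)))
      subst this
      simp [hy]
    have gx : 0 < G x := lt_of_le_of_ne (G0 x) (Ne.symm hx)
    have gy : 0 < G y := lt_of_le_of_ne (G0 y) (Ne.symm hy)
    have sx : 0 < Real.sqrt (G x) := Real.sqrt_pos.2 gx
    have sy : 0 < Real.sqrt (G y) := Real.sqrt_pos.2 gy
    have := Gt x y (Real.sqrt (G y) / Real.sqrt (G x)) (by positivity)
    rw [Real.sqrt_le_left (by positivity)]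
    refine this.trans (le_of_eq ?_)
    have ex : G x = Real.sqrt (G x) ^ 2 := (Real.sq_sqrt gx.le).symm
    have ey : G y = Real.sqrt (G y) ^ 2 := (Real.sq_sqrt gy.le).symm
    generalize Real.sqrt (G x) = a at *
    generalize Real.sqrt (G y) = b at *
    rw [ex, ey]
    field_simp
    ring
  · intro c x
    show Real.sqrt (G (c • x)) = ‖c‖ * Real.sqrt (G x)
    rw [Gsmul, Real.sqrt_mul (sq_nonneg _), Real.sqrt_sq (norm_nonneg _)]
  · intro x y
    show Real.sqrt (G (x + y)) ^ 2 + Real.sqrt (G (x - y)) ^ 2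
      = 2 * (Real.sqrt (G x) ^ 2 + Real.sqrt (G y) ^ 2)
    rw [Real.sq_sqrt (G0 _), Real.sq_sqrt (G0 _), Real.sq_sqrt (G0 _), Real.sq_sqrt (G0 _)]
    exact Gpar x y
  · intro x
    exact Real.le_sqrt_of_sq_le (Glow x)
  · intro x
    show Real.sqrt (G x) ≤ Real.sqrt K * ‖x‖
    have hK : 0 ≤ K * ‖x‖ ^ 2 := (G0 x).trans (Gup x)
    rcases (norm_nonneg x).eq_or_lt with h | h
    · have hG0 : G x = 0 := le_antisymm (by have := Gup x; rw [← h] at this; simpa using this) (G0 x)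
      rw [hG0, ← h]; simp
    · have hK' : 0 ≤ K := by
        by_contra hneg
        push Not at hneg
        have : K * ‖x‖ ^ 2 < 0 := mul_neg_of_neg_of_pos hneg (by positivity)
        linarith
      have := Real.sqrt_le_sqrt (Gup x)
      rwa [Real.sqrt_mul hK', Real.sqrt_sq (norm_nonneg _)] at this

end

end Pool.Agent.Lib.MP_cdd7b4_an.H85
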