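import Pool.Agent.Lib.MP_cdd7b4_an.H85.Main2

set_option autoImplicit false

namespace Pool.Agent.Lib.MP_cdd7b4_an.H85

open MeasureTheory Set
open scoped BigOperators NNReal ENNReal

/-- fair sign -/
noncomputable def rad : Measure ℝ := (2⁻¹ : ℝ≥0∞) • (Measure.dirac 1 + Measure.dirac (-1))

instance : IsProbabilityMeasure rad := by
  constructor
  simp only [rad, Measure.smul_apply, Measure.add_apply, measure_univ, smul_eq_mul]
  rw [one_add_one_eq_two]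
  exact ENNReal.inv_mul_cancel (by norm_num) (by norm_num)

lemma rad_ae : ∀ᵐ s ∂rad, s = 1 ∨ s = -1 := by
  have h1 : ∀ᵐ s ∂(Measure.dirac (1:ℝ)), s = 1 ∨ s = -1 := by
    have hm : MeasurableSet {s : ℝ | s = 1 ∨ s = -1} :=
      (measurableSet_singleton (1:ℝ)).union (measurableSet_singleton (-1:ℝ))
    exact (ae_dirac_iff hm).2 (Or.inl rfl)
  have h2 : ∀ᵐ s ∂(Measure.dirac (-1:ℝ)), s = 1 ∨ s = -1 := by
    have hm : MeasurableSet {s : ℝ | s = 1 ∨ s = -1} :=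
      (measurableSet_singleton (1:ℝ)).union (measurableSet_singleton (-1:ℝ))
    exact (ae_dirac_iff hm).2 (Or.inr rfl)
  unfold rad
  apply Measure.ae_smul_measure
  rw [ae_add_measure_iff]
  exact ⟨h1, h2⟩

lemma rad_neg : rad.map (fun s => - s) = rad := by
  unfold rad
  have h1 : (Measure.dirac (1:ℝ)).map (fun s => - s) = Measure.dirac (-1) :=
    Measure.map_dirac' measurable_neg 1
  have h2 : (Measure.dirac (-1:ℝ)).map (fun s => - s) = Measure.dirac 1 := by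
    have h := Measure.map_dirac' (f := fun s : ℝ => - s) measurable_neg (-1)
    rwa [neg_neg] at h
  have h3 : (Measure.dirac (1:ℝ) + Measure.dirac (-1)).map (fun s => - s)
      = (Measure.dirac (1:ℝ)).map (fun s => - s) + (Measure.dirac (-1:ℝ)).map (fun s => - s) :=
    Measure.map_add _ _ measurable_neg
  rw [Measure.map_smul, h3, h1, h2, add_comm]

/-- product of fair signs -/
noncomputable def SgL : Measure (ℕ → ℝ) := Measure.infinitePi (fun _ => rad)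

instance : IsProbabilityMeasure SgL := by unfold SgL; infer_instance

lemma SgL_eval (n : ℕ) : MeasurePreserving (fun ω : ℕ → ℝ => ω n) SgL rad := by
  unfold SgL
  exact measurePreserving_eval_infinitePi _ n

lemma SgL_ae : ∀ᵐ ω ∂SgL, ∀ n, ω n = 1 ∨ ω n = -1 := by
  rw [ae_all_iff]
  intro n
  exact (SgL_eval n).quasiMeasurePreserving.ae rad_ae

/-- flip of a coordinate -/
noncomputable def flipc (n : ℕ) (ω : ℕ → ℝ) : ℕ → ℝ := fun i => if i = n then - ω i else ω i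

lemma flipc_mp (n : ℕ) : MeasurePreserving (flipc n) SgL SgL := by
  have hf : ∀ i : ℕ, Measurable (fun s : ℝ => if i = n then - s else s) := by
    intro i
    split_ifs
    · exact measurable_neg
    · exact measurable_id
  refine ⟨?_, ?_⟩
  · unfold flipc
    rw [measurable_pi_iff]
    intro i
    exact (hf i).comp (measurable_pi_apply i)
  · have h := Measure.infinitePi_map_pi (μ := fun _ : ℕ => rad) hf
    unfold SgL
    refine Eq.trans h ?_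
    congr 1
    funext i
    split_ifs
    · exact rad_neg
    · exact Measure.map_id

section
variable {𝕜 : Type*} [RCLike 𝕜] {E : Type*} [NormedAddCommGroup E] [InnerProductSpace 𝕜 E]

/-- the sign sum -/
noncomputable def Ss (𝕜 : Type*) [RCLike 𝕜] {E : Type*} [NormedAddCommGroup E] [NormedSpace 𝕜 E]
    (s : Finset ℕ) (y : ℕ → E) (ω : ℕ → ℝ) : E := ∑ n ∈ s, ((ω n : ℝ) : 𝕜) • y n

lemma Ss_cont {E : Type*} [NormedAddCommGroup E] [NormedSpace 𝕜 E] (s : Finset ℕ) (y : ℕ → E) :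
    Continuous (Ss 𝕜 s y) := by
  unfold Ss
  fun_prop

lemma Ss_bdd {E : Type*} [NormedAddCommGroup E] [NormedSpace 𝕜 E] (s : Finset ℕ) (y : ℕ → E) :
    ∀ᵐ ω ∂SgL, ‖Ss 𝕜 s y ω‖ ≤ ∑ n ∈ s, ‖y n‖ := by
  filter_upwards [SgL_ae] with ω hω
  refine (norm_sum_le _ _).trans (Finset.sum_le_sum (fun n _ => ?_))
  rw [norm_smul, RCLike.norm_ofReal]
  rcases hω n with h | h <;> simp [h]

lemma Ss_integrable {E : Type*} [NormedAddCommGroup E] [NormedSpace 𝕜 E] (s : Finset ℕ)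
    (y : ℕ → E) (p : ℕ) : Integrable (fun ω => ‖Ss 𝕜 s y ω‖ ^ p) SgL := by
  refine Integrable.mono' (integrable_const ((∑ n ∈ s, ‖y n‖) ^ p)) ?_ ?_
  · exact ((Ss_cont s y).norm.pow p).measurable.aestronglyMeasurable
  · filter_upwards [Ss_bdd (𝕜 := 𝕜) s y] with ω hω
    rw [Real.norm_of_nonneg (by positivity)]
    exact pow_le_pow_left₀ (norm_nonneg _) hω p

lemma Ss_flip (s : Finset ℕ) (y : ℕ → E) {n : ℕ} (hn : n ∉ s) (ω : ℕ → ℝ) :
    Ss 𝕜 (insert n s) y (flipc n ω) = Ss 𝕜 s y ω - ((ω n : ℝ) : 𝕜) • y n := by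
  unfold Ss
  rw [Finset.sum_insert hn]
  have h1 : ∑ x ∈ s, ((flipc n ω x : ℝ) : 𝕜) • y x = ∑ x ∈ s, ((ω x : ℝ) : 𝕜) • y x := by
    refine Finset.sum_congr rfl (fun x hx => ?_)
    have : x ≠ n := fun h => hn (h ▸ hx)
    simp [flipc, this]
  rw [h1]
  simp [flipc]
  abel

lemma Ss_ins (s : Finset ℕ) (y : ℕ → E) {n : ℕ} (hn : n ∉ s) (ω : ℕ → ℝ) :
    Ss 𝕜 (insert n s) y ω = Ss 𝕜 s y ω + ((ω n : ℝ) : 𝕜) • y n := by
  unfold Ss
  rw [Finset.sum_insert hn, add_comm]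

lemma Ss_step (s : Finset ℕ) (y : ℕ → E) {n : ℕ} (hn : n ∉ s) (p : ℕ) :
    ∫ ω, ‖Ss 𝕜 (insert n s) y ω‖ ^ p ∂SgL
      = ∫ ω, (‖Ss 𝕜 s y ω + ((ω n : ℝ) : 𝕜) • y n‖ ^ p
          + ‖Ss 𝕜 s y ω - ((ω n : ℝ) : 𝕜) • y n‖ ^ p) / 2 ∂SgL := by
  have h1 : ∫ ω, ‖Ss 𝕜 (insert n s) y (flipc n ω)‖ ^ p ∂SgL
      = ∫ ω, ‖Ss 𝕜 (insert n s) y ω‖ ^ p ∂SgL := by
    have h := integral_map (μ := SgL) (φ := flipc n) (flipc_mp n).measurable.aemeasurable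
      (f := fun ω => ‖Ss 𝕜 (insert n s) y ω‖ ^ p)
      (((Ss_cont (insert n s) y).norm.pow p).measurable.aestronglyMeasurable)
    rw [(flipc_mp n).map_eq] at h
    exact h.symm
  have h2 : Integrable (fun ω => ‖Ss 𝕜 (insert n s) y (flipc n ω)‖ ^ p) SgL :=
    (flipc_mp n).integrable_comp_of_integrable (Ss_integrable (insert n s) y p)
  have h3 : ∫ ω, (‖Ss 𝕜 (insert n s) y ω‖ ^ p + ‖Ss 𝕜 (insert n s) y (flipc n ω)‖ ^ p) / 2 ∂SgL
      = ∫ ω, ‖Ss 𝕜 (insert n s) y ω‖ ^ p ∂SgL := by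
    rw [integral_div, integral_add (Ss_integrable _ y p) h2, h1]
    ring
  rw [← h3]
  apply integral_congr_ae
  refine Filter.Eventually.of_forall (fun ω => ?_)
  simp only [Ss_flip s y hn, Ss_ins s y hn]

lemma Ss_two (s : Finset ℕ) (y : ℕ → E) :
    ∫ ω, ‖Ss 𝕜 s y ω‖ ^ 2 ∂SgL = ∑ n ∈ s, ‖y n‖ ^ 2 := by
  classical
  induction s using Finset.induction_on with
  | empty => simp [Ss]
  | insert n s hn ih =>
    rw [Ss_step s y hn, Finset.sum_insert hn, ← ih]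
    have : ∫ ω, ‖y n‖ ^ 2 + ‖Ss 𝕜 s y ω‖ ^ 2 ∂SgL = ‖y n‖ ^ 2 + ∫ ω, ‖Ss 𝕜 s y ω‖ ^ 2 ∂SgL := by
      rw [integral_add (integrable_const _) (Ss_integrable s y 2)]
      simp
    rw [← this]
    apply integral_congr_ae
    filter_upwards [SgL_ae] with ω hω
    have hp := parallelogram_law_with_norm 𝕜 (Ss 𝕜 s y ω) (((ω n : ℝ) : 𝕜) • y n)
    have hn1 : ‖((ω n : ℝ) : 𝕜) • y n‖ = ‖y n‖ := by
      rw [norm_smul, RCLike.norm_ofReal]
      rcases hω n with h | h <;> simp [h]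
    rw [hn1] at hp
    simp only [sq] at hp ⊢
    linarith

lemma Ss_four (s : Finset ℕ) (y : ℕ → E) :
    ∫ ω, ‖Ss 𝕜 s y ω‖ ^ 4 ∂SgL ≤ 3 * (∑ n ∈ s, ‖y n‖ ^ 2) ^ 2 := by
  classical
  induction s using Finset.induction_on with
  | empty => simp [Ss]
  | insert n s hn ih =>
    rw [Ss_step s y hn, Finset.sum_insert hn]
    have h2 := Ss_two (𝕜 := 𝕜) s y
    have hb : ∫ ω, (‖Ss 𝕜 s y ω + ((ω n : ℝ) : 𝕜) • y n‖ ^ 4
          + ‖Ss 𝕜 s y ω - ((ω n : ℝ) : 𝕜) • y n‖ ^ 4) / 2 ∂SgL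
        ≤ ∫ ω, (‖Ss 𝕜 s y ω‖ ^ 4 + 6 * ‖y n‖ ^ 2 * ‖Ss 𝕜 s y ω‖ ^ 2 + ‖y n‖ ^ 4) ∂SgL := by
      apply integral_mono_of_nonneg
      · exact Filter.Eventually.of_forall (fun ω => by positivity)
      · exact ((Ss_integrable s y 4).add ((Ss_integrable s y 2).const_mul _)).add
          (integrable_const _)
      · filter_upwards [SgL_ae] with ω hω
        have hp := parallelogram_law_with_norm 𝕜 (Ss 𝕜 s y ω) (((ω n : ℝ) : 𝕜) • y n)
        have hn1 : ‖((ω n : ℝ) : 𝕜) • y n‖ = ‖y n‖ := by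
          rw [norm_smul, RCLike.norm_ofReal]
          rcases hω n with h | h <;> simp [h]
        have ha := norm_add_sq (𝕜 := 𝕜) (Ss 𝕜 s y ω) (((ω n : ℝ) : 𝕜) • y n)
        have hs := norm_sub_sq (𝕜 := 𝕜) (Ss 𝕜 s y ω) (((ω n : ℝ) : 𝕜) • y n)
        have hi : |RCLike.re (inner 𝕜 (Ss 𝕜 s y ω) (((ω n : ℝ) : 𝕜) • y n))|
            ≤ ‖Ss 𝕜 s y ω‖ * ‖y n‖ := by
          rw [← hn1]
          exact (RCLike.abs_re_le_norm _).trans (norm_inner_le_norm _ _)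
        rw [hn1] at ha hs
        set r := RCLike.re (inner 𝕜 (Ss 𝕜 s y ω) (((ω n : ℝ) : 𝕜) • y n))
        set A := ‖Ss 𝕜 s y ω‖
        set b := ‖y n‖
        have hr : r ^ 2 ≤ A ^ 2 * b ^ 2 := by
          rw [← sq_abs, ← mul_pow]
          exact pow_le_pow_left₀ (abs_nonneg _) hi 2
        have e1 : ‖Ss 𝕜 s y ω + ((ω n : ℝ) : 𝕜) • y n‖ ^ 4 = (A ^ 2 + 2 * r + b ^ 2) ^ 2 := by
          rw [← ha]; ring
        have e2 : ‖Ss 𝕜 s y ω - ((ω n : ℝ) : 𝕜) • y n‖ ^ 4 = (A ^ 2 - 2 * r + b ^ 2) ^ 2 := by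
          rw [← hs]; ring
        simp only [e1, e2]
        nlinarith
    refine hb.trans ?_
    have e3 : ∫ ω, (‖Ss 𝕜 s y ω‖ ^ 4 + 6 * ‖y n‖ ^ 2 * ‖Ss 𝕜 s y ω‖ ^ 2 + ‖y n‖ ^ 4) ∂SgL
        = ∫ ω, ‖Ss 𝕜 s y ω‖ ^ 4 ∂SgL + 6 * ‖y n‖ ^ 2 * ∑ n ∈ s, ‖y n‖ ^ 2 + ‖y n‖ ^ 4 := by
      have i1 : Integrable (fun ω => ‖Ss 𝕜 s y ω‖ ^ 4) SgL := Ss_integrable s y 4
      have i2 : Integrable (fun ω => 6 * ‖y n‖ ^ 2 * ‖Ss 𝕜 s y ω‖ ^ 2) SgL :=
        (Ss_integrable s y 2).const_mul _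
      have a1 := integral_add (i1.add i2) (integrable_const (μ := SgL) (‖y n‖ ^ 4))
      have a2 := integral_add i1 i2
      simp only [Pi.add_apply] at a1
      rw [a1, a2, integral_const_mul, h2]
      simp
    rw [e3]
    have hS : 0 ≤ ∑ n ∈ s, ‖y n‖ ^ 2 := Finset.sum_nonneg (fun n _ => sq_nonneg _)
    nlinarith [sq_nonneg (‖y n‖ ^ 2)]

lemma Ss_lower (s : Finset ℕ) (y : ℕ → E) {t : ℝ} (ht : 0 < t) (h1 : ∑ n ∈ s, ‖y n‖ ^ 2 = t ^ 2) :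
    4 / 9 * t ≤ ∫ ω, ‖Ss 𝕜 s y ω‖ ∂SgL := by
  have h2 := Ss_two (𝕜 := 𝕜) s y
  have h4 := Ss_four (𝕜 := 𝕜) s y
  rw [h1] at h2 h4
  have : ∫ ω, (‖Ss 𝕜 s y ω‖ ^ 2 / (2 * t) - ‖Ss 𝕜 s y ω‖ ^ 4 / (54 * t ^ 3)) ∂SgL
      ≤ ∫ ω, ‖Ss 𝕜 s y ω‖ ∂SgL := by
    apply integral_mono
    · exact ((Ss_integrable s y 2).div_const _).sub ((Ss_integrable s y 4).div_const _)
    · have := Ss_integrable (𝕜 := 𝕜) s y 1
      simpa using this
    · intro ω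
      have := quart t ‖Ss 𝕜 s y ω‖ ht
      simp only [abs_norm] at this
      exact this
  rw [integral_sub ((Ss_integrable s y 2).div_const _) ((Ss_integrable s y 4).div_const _),
    integral_div, integral_div, h2] at this
  refine le_trans ?_ this
  have h5 : (∫ ω, ‖Ss 𝕜 s y ω‖ ^ 4 ∂SgL) / (54 * t ^ 3) ≤ 3 * (t ^ 2) ^ 2 / (54 * t ^ 3) :=
    div_le_div_of_nonneg_right h4 (by positivity)
  have h6 : 3 * (t ^ 2) ^ 2 / (54 * t ^ 3) = t / 18 := by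
    field_simp
    ring
  have h7 : t ^ 2 / (2 * t) = t / 2 := by
    field_simp
  rw [h7]
  linarith

lemma Ss_upper (s : Finset ℕ) (y : ℕ → E) {t : ℝ} (ht : 0 < t) (h1 : ∑ n ∈ s, ‖y n‖ ^ 2 = t ^ 2) :
    ∫ ω, ‖Ss 𝕜 s y ω‖ ∂SgL ≤ t := by
  have h2 := Ss_two (𝕜 := 𝕜) s y
  rw [h1] at h2
  have : ∫ ω, ‖Ss 𝕜 s y ω‖ ∂SgL ≤ ∫ ω, (‖Ss 𝕜 s y ω‖ ^ 2 / (2 * t) + t / 2) ∂SgL := by
    apply integral_mono
    · have := Ss_integrable (𝕜 := 𝕜) s y 1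
      simpa using this
    · exact ((Ss_integrable s y 2).div_const _).add (integrable_const _)
    · intro ω
      have h3 : 0 ≤ (‖Ss 𝕜 s y ω‖ - t) ^ 2 / (2 * t) := by positivity
      have h4 : (‖Ss 𝕜 s y ω‖ - t) ^ 2 / (2 * t)
          = ‖Ss 𝕜 s y ω‖ ^ 2 / (2 * t) + t / 2 - ‖Ss 𝕜 s y ω‖ := by
        field_simp
        ring
      simp only
      linarith
  rw [integral_add ((Ss_integrable s y 2).div_const _) (integrable_const _), integral_div,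
    h2] at this
  have h7 : t ^ 2 / (2 * t) = t / 2 := by
    field_simp
  rw [h7] at this
  simp at this
  linarith

end

section
variable {𝕜 : Type*} [RCLike 𝕜] {X : Type*} [NormedAddCommGroup X] [NormedSpace 𝕜 X]

lemma sg_integrable (n : ℕ) (v : X) :
    Integrable (fun ω : ℕ → ℝ => ((ω n : ℝ) : 𝕜) • v) SgL := by
  apply Integrable.smul_const
  refine Integrable.mono' (integrable_const (1:ℝ)) ?_ ?_
  · apply Measurable.aestronglyMeasurable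
    fun_prop
  · filter_upwards [SgL_ae] with ω hω
    rw [RCLike.norm_ofReal]
    rcases hω n with h | h <;> simp [h]

/-- `v ↦ ε_n v`. -/
noncomputable def sgMul (𝕜 : Type*) [RCLike 𝕜] (X : Type*) [NormedAddCommGroup X]
    [NormedSpace 𝕜 X] (n : ℕ) : X →ₗ[𝕜] Lp X 1 SgL where
  toFun v := (sg_integrable (𝕜 := 𝕜) n v).toL1 _
  map_add' v w := by
    apply Lp.ext
    filter_upwards [(sg_integrable (𝕜 := 𝕜) n (v + w)).coeFn_toL1,
      (sg_integrable (𝕜 := 𝕜) n v).coeFn_toL1, (sg_integrable (𝕜 := 𝕜) n w).coeFn_toL1,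
      Lp.coeFn_add ((sg_integrable (𝕜 := 𝕜) n v).toL1 _)
        ((sg_integrable (𝕜 := 𝕜) n w).toL1 _)] with z a2 a3 a4 a5
    rw [a5, Pi.add_apply, a2, a3, a4, smul_add]
  map_smul' c v := by
    apply Lp.ext
    filter_upwards [(sg_integrable (𝕜 := 𝕜) n (c • v)).coeFn_toL1,
      (sg_integrable (𝕜 := 𝕜) n v).coeFn_toL1,
      Lp.coeFn_smul c ((sg_integrable (𝕜 := 𝕜) n v).toL1 _)] with z a2 a3 a4
    simp only [RingHom.id_apply]
    rw [a4, Pi.smul_apply, a2, a3, smul_comm]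

/-- The sign map on finitely supported sequences. -/
noncomputable def T1 (𝕜 : Type*) [RCLike 𝕜] (X : Type*) [NormedAddCommGroup X]
    [NormedSpace 𝕜 X] : (ℕ →₀ X) →ₗ[𝕜] Lp X 1 SgL :=
  Finsupp.lsum ℕ (fun n => sgMul 𝕜 X n)

lemma norm_T1 (x : ℕ →₀ X) : ‖T1 𝕜 X x‖ = ∫ ω, ‖Ss 𝕜 x.support x ω‖ ∂SgL := by
  have e1 : T1 𝕜 X x = ∑ n ∈ x.support, sgMul 𝕜 X n (x n) := by
    rw [T1, Finsupp.lsum_apply, Finsupp.sum]
  rw [L1.norm_eq_integral_norm]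
  apply integral_congr_ae
  rw [e1]
  have a1 := Lp.coeFn_fun_finsetSum x.support (fun n => sgMul 𝕜 X n (x n))
  have a2 : ∀ᵐ ω ∂SgL, ∀ n ∈ x.support,
      (sgMul 𝕜 X n (x n) : (ℕ → ℝ) → X) ω = ((ω n : ℝ) : 𝕜) • x n :=
    (Finset.eventually_all x.support).2 (fun n _ => (sg_integrable (𝕜 := 𝕜) n (x n)).coeFn_toL1)
  filter_upwards [a1, a2] with ω b1 b2
  rw [b1, Finset.sum_congr rfl b2]
  rfl

theorem converse_hilbert [CompleteSpace X] {E : Type*} [NormedAddCommGroup E]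
    [InnerProductSpace 𝕜 E] (e : X ≃L[𝕜] E) :
    ContainsCopy 𝕜 (Lp X 1 (volume.restrict (Icc (0:ℝ) 1))) (lp (fun _ : ℕ => X) 2) := by
  obtain ⟨g, hgm⟩ := exists_mp SgL
  let Φ := Lp.compMeasurePreservingₗᵢ 𝕜 (E := X) (p := 1) g hgm
  -- constants
  set K₁ : ℝ := ‖(e : X →L[𝕜] E)‖ + 1 with hK₁
  set K₂ : ℝ := ‖(e.symm : E →L[𝕜] X)‖ + 1 with hK₂
  have hK₁pos : 0 < K₁ := by positivity
  have hK₂pos : 0 < K₂ := by positivity
  have h1 : ∀ v : X, ‖e v‖ ≤ K₁ * ‖v‖ := by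
    intro v
    have := (e : X →L[𝕜] E).le_opNorm v
    have h0 := norm_nonneg v
    calc ‖e v‖ ≤ ‖(e : X →L[𝕜] E)‖ * ‖v‖ := this
      _ ≤ K₁ * ‖v‖ := by rw [hK₁]; nlinarith
  have h2 : ∀ w : E, ‖e.symm w‖ ≤ K₂ * ‖w‖ := by
    intro w
    have := (e.symm : E →L[𝕜] X).le_opNorm w
    have h0 := norm_nonneg w
    calc ‖e.symm w‖ ≤ ‖(e.symm : E →L[𝕜] X)‖ * ‖w‖ := this
      _ ≤ K₂ * ‖w‖ := by rw [hK₂]; nlinarith
  have h2' : ∀ v : X, ‖v‖ ≤ K₂ * ‖e v‖ := by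
    intro v
    have := h2 (e v)
    rwa [ContinuousLinearEquiv.symm_apply_apply] at this
  refine extend_copy (𝕜 := 𝕜) (Φ.toLinearMap.comp (T1 𝕜 X)) (c := K₁⁻¹ * (4 / 9 * K₂⁻¹))
    (C := K₂ * K₁) (by positivity) (fun x hx => ?_)
  have en : ‖(Φ.toLinearMap.comp (T1 𝕜 X)) x‖ = ‖T1 𝕜 X x‖ := Φ.norm_map _
  rw [en, norm_T1]
  have hSe : ∀ ω, e (Ss 𝕜 x.support x ω) = Ss 𝕜 x.support (fun n => e (x n)) ω := by
    intro ω
    simp only [Ss, map_sum, map_smul]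
  set t : ℝ := Real.sqrt (∑ n ∈ x.support, ‖e (x n)‖ ^ 2) with ht
  have ht2 : ∑ n ∈ x.support, ‖e (x n)‖ ^ 2 = t ^ 2 := by
    rw [ht, Real.sq_sqrt (Finset.sum_nonneg (fun n _ => sq_nonneg _))]
  have hB1 : t ^ 2 ≤ K₁ ^ 2 := by
    rw [← ht2, ← mul_one (K₁ ^ 2), ← hx, Finset.mul_sum]
    refine Finset.sum_le_sum (fun n _ => ?_)
    rw [← mul_pow]
    exact pow_le_pow_left₀ (norm_nonneg _) (h1 _) 2
  have hB2 : 1 ≤ K₂ ^ 2 * t ^ 2 := by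
    rw [← ht2, ← hx, Finset.mul_sum]
    refine Finset.sum_le_sum (fun n _ => ?_)
    rw [← mul_pow]
    exact pow_le_pow_left₀ (norm_nonneg _) (h2' _) 2
  have ht0 : 0 ≤ t := Real.sqrt_nonneg _
  have htpos : 0 < t := by
    rcases ht0.eq_or_lt with h | h
    · rw [← h] at hB2
      norm_num at hB2
    · exact h
  have htK : t ≤ K₁ := le_of_sq_le_sq hB1 hK₁pos.le
  have htK2 : K₂⁻¹ ≤ t := by
    rw [inv_le_iff_one_le_mul₀ hK₂pos]
    have : (1:ℝ) ^ 2 ≤ (t * K₂) ^ 2 := by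
      rw [one_pow, mul_pow]; linarith
    exact le_of_sq_le_sq this (by positivity)
  have hlow := Ss_lower (𝕜 := 𝕜) x.support (fun n => e (x n)) htpos ht2
  have hup := Ss_upper (𝕜 := 𝕜) x.support (fun n => e (x n)) htpos ht2
  have i1 : Integrable (fun ω => ‖Ss 𝕜 x.support x ω‖) SgL := by
    have := Ss_integrable (𝕜 := 𝕜) x.support (x : ℕ → X) 1
    simpa using this
  have i2 : Integrable (fun ω => ‖Ss 𝕜 x.support (fun n => e (x n)) ω‖) SgL := by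
    have := Ss_integrable (𝕜 := 𝕜) x.support (fun n => e (x n)) 1
    simpa using this
  constructor
  · have h3 : ∫ ω, ‖Ss 𝕜 x.support (fun n => e (x n)) ω‖ ∂SgL
        ≤ ∫ ω, K₁ * ‖Ss 𝕜 x.support x ω‖ ∂SgL := by
      apply integral_mono i2 (i1.const_mul _)
      intro ω
      simp only
      rw [← hSe ω]
      exact h1 _
    rw [integral_const_mul] at h3
    rw [inv_mul_le_iff₀ hK₁pos]
    nlinarith
  · have h3 : ∫ ω, ‖Ss 𝕜 x.support x ω‖ ∂SgL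
        ≤ ∫ ω, K₂ * ‖Ss 𝕜 x.support (fun n => e (x n)) ω‖ ∂SgL := by
      apply integral_mono i1 (i2.const_mul _)
      intro ω
      simp only
      rw [← hSe ω]
      exact h2' _
    rw [integral_const_mul] at h3
    nlinarith

end

end Pool.Agent.Lib.MP_cdd7b4_an.H85
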