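import Pool.Agent.Lib.MP_cdd7b4_an.H85.Suff

set_option autoImplicit false

namespace Pool.Agent.Lib.MP_cdd7b4_an.H85

open MeasureTheory Set
open scoped BigOperators NNReal ENNReal

lemma mp_projIcc : MeasurePreserving (Set.projIcc (0:ℝ) 1 zero_le_one)
    (volume.restrict (Icc (0:ℝ) 1)) (volume : Measure unitInterval) := by
  have hm : Measurable (Set.projIcc (0:ℝ) 1 zero_le_one) := continuous_projIcc.measurable
  refine ⟨hm, ?_⟩
  have h := unitInterval.measurePreserving_coe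
  rw [← h.map_eq, Measure.map_map hm h.measurable]
  have : Set.projIcc (0:ℝ) 1 zero_le_one ∘ (Subtype.val : unitInterval → ℝ) = id := by
    funext x
    exact Set.projIcc_val zero_le_one x
  rw [this, Measure.map_id]

/-- Every standard Borel probability space is a factor of `[0,1]`. -/
lemma exists_mp {Y : Type*} [MeasurableSpace Y] [StandardBorelSpace Y] (μ : Measure Y)
    [IsProbabilityMeasure μ] :
    ∃ g : ℝ → Y, MeasurePreserving g (volume.restrict (Icc (0:ℝ) 1)) μ := by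
  have : Nonempty Y := by
    by_contra hne
    rw [not_nonempty_iff] at hne
    have : μ = 0 := Measure.eq_zero_of_isEmpty μ
    exact IsProbabilityMeasure.ne_zero μ this
  obtain ⟨f, hf, hmap⟩ := Measure.exists_measurable_map_eq μ
  exact ⟨f ∘ Set.projIcc (0:ℝ) 1 zero_le_one, MeasurePreserving.comp ⟨hf, hmap⟩ mp_projIcc⟩

section
variable {𝕜 : Type*} [RCLike 𝕜] {X : Type*} [NormedAddCommGroup X] [NormedSpace 𝕜 X]

/-- embedding of finitely supported sequences -/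
noncomputable def eF (𝕜 : Type*) [RCLike 𝕜] (X : Type*) [NormedAddCommGroup X]
    [NormedSpace 𝕜 X] : (ℕ →₀ X) →ₗ[𝕜] lp (fun _ : ℕ => X) 2 :=
  Finsupp.lsum ℕ (fun n => lp.lsingle (𝕜 := 𝕜) (E := fun _ : ℕ => X) 2 n)

lemma eF_apply (x : ℕ →₀ X) :
    eF 𝕜 X x = ∑ n ∈ x.support, lp.single (E := fun _ : ℕ => X) 2 n (x n) := by
  rw [eF, Finsupp.lsum_apply, Finsupp.sum]
  rfl

lemma norm_eF (x : ℕ →₀ X) : ‖eF 𝕜 X x‖ ^ 2 = ∑ n ∈ x.support, ‖x n‖ ^ 2 := by
  rw [eF_apply]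
  have := lp.norm_sum_single (E := fun _ : ℕ => X) (p := 2) (by norm_num) (fun n => x n) x.support
  simpa using this

lemma denseRange_eF : DenseRange (eF 𝕜 X) := by
  classical
  intro f
  have h := lp.hasSum_single (E := fun _ : ℕ => X) (p := 2) (by norm_num) f
  refine mem_closure_of_tendsto h (Filter.Eventually.of_forall (fun s => ?_))
  refine ⟨∑ n ∈ s, Finsupp.single n (f n), ?_⟩
  rw [map_sum]
  refine Finset.sum_congr rfl (fun n _ => ?_)
  rw [eF, Finsupp.lsum_apply, Finsupp.sum_single_index (by simp)]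
  rfl

/-- Extension by density. -/
lemma extend_copy {W : Type*} [NormedAddCommGroup W] [NormedSpace 𝕜 W] [CompleteSpace W]
    (T : (ℕ →₀ X) →ₗ[𝕜] W) {c C : ℝ} (hc : 0 < c)
    (h : ∀ x : ℕ →₀ X, ∑ n ∈ x.support, ‖x n‖ ^ 2 = 1 → c ≤ ‖T x‖ ∧ ‖T x‖ ≤ C) :
    ContainsCopy 𝕜 W (lp (fun _ : ℕ => X) 2) := by
  have key : ∀ x : ℕ →₀ X, c * ‖eF 𝕜 X x‖ ≤ ‖T x‖ ∧ ‖T x‖ ≤ C * ‖eF 𝕜 X x‖ := by
    intro x
    by_cases hx : x = 0
    · subst hx; simp
    set r := ‖eF 𝕜 X x‖ with hr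
    have hr2 : r ^ 2 = ∑ n ∈ x.support, ‖x n‖ ^ 2 := norm_eF x
    have hrpos : 0 < r := by
      rcases (norm_nonneg (eF 𝕜 X x)).eq_or_lt with h0 | h0
      · exfalso
        apply hx
        rw [← hr] at h0
        rw [← h0] at hr2
        have h3 := hr2.symm
        rw [zero_pow two_ne_zero, Finset.sum_eq_zero_iff_of_nonneg (fun n _ => sq_nonneg _)] at h3
        ext n
        by_cases hn : n ∈ x.support
        · have := h3 n hn
          simpa using this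
        · simpa using hn
      · exact h0
    set y : ℕ →₀ X := ((r⁻¹ : ℝ) : 𝕜) • x with hy
    have hr0 : ((r⁻¹ : ℝ) : 𝕜) ≠ 0 := by
      exact_mod_cast (inv_pos.2 hrpos).ne'
    have hys : y.support = x.support := Finsupp.support_smul_eq hr0
    have hyn : ∑ n ∈ y.support, ‖y n‖ ^ 2 = 1 := by
      rw [hys]
      have : ∀ n, ‖y n‖ ^ 2 = r⁻¹ ^ 2 * ‖x n‖ ^ 2 := by
        intro n
        rw [hy, Finsupp.smul_apply, norm_smul, mul_pow, RCLike.norm_ofReal, sq_abs]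
      simp only [this]
      rw [← Finset.mul_sum, ← hr2]
      field_simp
    have hT : ‖T y‖ = r⁻¹ * ‖T x‖ := by
      rw [hy, map_smul, norm_smul, RCLike.norm_ofReal, abs_of_pos (inv_pos.2 hrpos)]
    obtain ⟨h1, h2⟩ := h y hyn
    rw [hT] at h1 h2
    constructor
    · calc c * r ≤ (r⁻¹ * ‖T x‖) * r := mul_le_mul_of_nonneg_right h1 hrpos.le
        _ = ‖T x‖ := by field_simp
    · calc ‖T x‖ = (r⁻¹ * ‖T x‖) * r := by field_simp
        _ ≤ C * r := mul_le_mul_of_nonneg_right h2 hrpos.le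
  refine ⟨T.extendOfNorm (eF 𝕜 X), c, hc, ?_⟩
  have heq := LinearMap.extendOfNorm_eq (f := T) (denseRange_eF (𝕜 := 𝕜) (X := X))
    ⟨C, fun x => (key x).2⟩
  intro z
  refine (denseRange_eF (𝕜 := 𝕜) (X := X)).induction_on
    (p := fun z => c * ‖z‖ ≤ ‖T.extendOfNorm (eF 𝕜 X) z‖) z ?_ ?_
  · exact isClosed_le (by fun_prop) (by fun_prop)
  · intro x
    rw [heq]
    exact (key x).1

theorem main_two {J : ℕ → X →ₗ[𝕜] Lp X 1 (volume.restrict (Icc (0:ℝ) 1))} [CompleteSpace X]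
    {c C : ℝ} {h : ℝ → ℝ} (hg : Good (volume.restrict (Icc (0:ℝ) 1)) J c C h) :
    ContainsCopy 𝕜 (Lp X 1 (volume.restrict (Icc (0:ℝ) 1))) (lp (fun _ : ℕ => X) 2) := by
  haveI : IsProbabilityMeasure (volume.restrict (Icc (0:ℝ) 1)) := by
    constructor
    simp
  obtain ⟨g, hgm⟩ := exists_mp (PrL.prod (volume.restrict (Icc (0:ℝ) 1)))
  let Φ := Lp.compMeasurePreservingₗᵢ 𝕜 (E := X) (p := 1) g hgm
  refine extend_copy (𝕜 := 𝕜) (Φ.toLinearMap.comp (T0 _ J)) (c := c / 2)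
    (C := C + 2 * ∫ s in Ioi (0:ℝ), h s / s ^ 3) (by have := hg.cpos; positivity) (fun x hx => ?_)
  have e : ‖(Φ.toLinearMap.comp (T0 _ J)) x‖ = ‖T0 (volume.restrict (Icc (0:ℝ) 1)) J x‖ :=
    Φ.norm_map _
  rw [e]
  exact ⟨lower_T0 hg x hx, upper_T0 hg x hx⟩

end

end Pool.Agent.Lib.MP_cdd7b4_an.H85
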