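import Pool.Agent.Lib.MP_cdd7b4_an.H85.TypeTwo

set_option autoImplicit false

namespace Pool.Agent.Lib.MP_cdd7b4_an.H85

open MeasureTheory Set
open scoped BigOperators

section
variable {𝕜 : Type*} [RCLike 𝕜] {X : Type*} [NormedAddCommGroup X] [NormedSpace 𝕜 X]
  {Ω : Type*} [MeasurableSpace Ω] {μ : Measure Ω}

lemma sqrt_sum_le {ι : Type*} [Fintype ι] (a : ι → ℝ) (ha : ∀ i, 0 ≤ a i) :
    Real.sqrt (∑ i, a i ^ 2) ≤ ∑ i, a i := by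
  rw [Real.sqrt_le_left (Finset.sum_nonneg (fun i _ => ha i))]
  rw [sq (∑ i, a i), Finset.sum_mul]
  refine Finset.sum_le_sum (fun i _ => ?_)
  rw [sq]
  exact mul_le_mul_of_nonneg_left
    (Finset.single_le_sum (fun j _ => ha j) (Finset.mem_univ i)) (ha i)

lemma sq_integrable {M : ℕ} (f : Fin M → Lp 𝕜 1 μ) :
    Integrable (fun ω => Real.sqrt (∑ i, ‖(f i : Ω → 𝕜) ω‖ ^ 2)) μ := by
  have hint : ∀ i, Integrable (fun a => ‖(f i : Ω → 𝕜) a‖) μ :=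
    fun i => (L1.integrable_coeFn (f i)).norm
  refine Integrable.mono' (integrable_finsetSum Finset.univ (fun i _ => hint i)) ?_ ?_
  · apply AEMeasurable.aestronglyMeasurable
    apply AEMeasurable.sqrt
    apply Finset.aemeasurable_fun_sum
    intro i _
    exact (hint i).aestronglyMeasurable.aemeasurable.pow_const 2
  · refine Filter.Eventually.of_forall (fun ω => ?_)
    rw [Real.norm_of_nonneg (Real.sqrt_nonneg _)]
    exact sqrt_sum_le _ (fun i => norm_nonneg _)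

/-- Minkowski. -/
lemma mink {M : ℕ} (f : Fin M → Lp 𝕜 1 μ) :
    Real.sqrt (∑ i, ‖f i‖ ^ 2) ≤ ∫ ω, Real.sqrt (∑ i, ‖(f i : Ω → 𝕜) ω‖ ^ 2) ∂μ := by
  have hint : ∀ i, Integrable (fun a => ‖(f i : Ω → 𝕜) a‖) μ :=
    fun i => (L1.integrable_coeFn (f i)).norm
  set r := Real.sqrt (∑ i, ‖f i‖ ^ 2) with hr
  have hS : 0 ≤ ∑ i, ‖f i‖ ^ 2 := Finset.sum_nonneg (fun i _ => sq_nonneg _)
  have h1 : r * r ≤ r * ∫ ω, Real.sqrt (∑ i, ‖(f i : Ω → 𝕜) ω‖ ^ 2) ∂μ := by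
    rw [hr, Real.mul_self_sqrt hS, ← hr, ← integral_const_mul]
    have e : ∑ i, ‖f i‖ ^ 2 = ∫ ω, ∑ i, ‖f i‖ * ‖(f i : Ω → 𝕜) ω‖ ∂μ := by
      rw [integral_finsetSum _ (fun i _ => (hint i).const_mul _)]
      refine Finset.sum_congr rfl (fun i _ => ?_)
      rw [integral_const_mul, ← L1.norm_eq_integral_norm, sq]
    rw [e]
    apply integral_mono_of_nonneg
    · exact Filter.Eventually.of_forall (fun ω => Finset.sum_nonneg (fun i _ => by positivity))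
    · exact (sq_integrable f).const_mul _
    · refine Filter.Eventually.of_forall (fun ω => ?_)
      exact Real.sum_mul_le_sqrt_mul_sqrt _ _ _
  rcases (Real.sqrt_nonneg (∑ i, ‖f i‖ ^ 2)).eq_or_lt with h0 | h0
  · rw [← hr] at h0
    rw [← h0]
    exact integral_nonneg (fun ω => Real.sqrt_nonneg _)
  · exact le_of_mul_le_mul_left h1 h0

theorem stepE {K : ℝ} (hK : 0 ≤ K) {W : Type*} [NormedAddCommGroup W] [NormedSpace 𝕜 W]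
    (hW : PP K W) (T : lp (fun _ : ℕ => X) 2 →L[𝕜] W) {c : ℝ} (hc : 0 < c)
    (hT : ∀ z, c * ‖z‖ ≤ ‖T z‖) (J : X →L[𝕜] Lp 𝕜 1 μ) {M : ℕ} (y : Fin M → X) :
    ∫ ω, Real.sqrt (∑ j, ‖(J (y j) : Ω → 𝕜) ω‖ ^ 2) ∂μ
      ≤ (4 * ‖J‖ * (K * ‖T‖) / c) * Real.sqrt (∑ j, ‖y j‖ ^ 2) := by
  classical
  set P : ℝ := ((2 * M : ℕ) : ℝ) ^ (2 * M) with hP
  have hPpos : 0 < P := by
    rcases Nat.eq_zero_or_pos M with rfl | hM
    · simp [hP]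
    · have : (0:ℝ) < ((2 * M : ℕ) : ℝ) := by exact_mod_cast (by omega : 0 < 2 * M)
      positivity
  have h1 : ∫ ω, Real.sqrt 2 / 4 * P * Real.sqrt (∑ j, ‖(J (y j) : Ω → 𝕜) ω‖ ^ 2) ∂μ
      ≤ ∫ ω, ∑ k : Fin (2 * M) → (Fin M × Bool),
          ‖(J (∑ m, sv y (k m)) : Ω → 𝕜) ω‖ ∂μ := by
    apply integral_mono_of_nonneg
    · exact Filter.Eventually.of_forall (fun ω => by positivity)
    · exact integrable_finsetSum _ (fun k _ => (L1.integrable_coeFn _).norm)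
    · have a1 : ∀ᵐ ω ∂μ, ∀ k : Fin (2 * M) → (Fin M × Bool),
          (J (∑ m, sv y (k m)) : Ω → 𝕜) ω = ∑ m, (J (sv y (k m)) : Ω → 𝕜) ω := by
        rw [ae_all_iff]; intro k
        rw [map_sum]
        exact Lp.coeFn_fun_finsetSum _ _
      have a2 : ∀ᵐ ω ∂μ, ∀ p : Fin M × Bool,
          (J (sv y p) : Ω → 𝕜) ω = sv (fun j => (J (y j) : Ω → 𝕜) ω) p := by
        rw [ae_all_iff]; rintro ⟨j, b⟩
        cases b
        · simp only [sv, Bool.false_eq_true, if_false, map_neg]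
          exact Lp.coeFn_neg _
        · simp [sv]
      filter_upwards [a1, a2] with ω b1 b2
      simp only [b1, b2]
      exact lower_rclike _
  have h2 : ∫ ω, ∑ k : Fin (2 * M) → (Fin M × Bool), ‖(J (∑ m, sv y (k m)) : Ω → 𝕜) ω‖ ∂μ
      ≤ ‖J‖ * ∑ k : Fin (2 * M) → (Fin M × Bool), ‖∑ m, sv y (k m)‖ := by
    rw [integral_finsetSum _ (fun k _ => (L1.integrable_coeFn _).norm), Finset.mul_sum]
    refine Finset.sum_le_sum (fun k _ => ?_)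
    rw [← L1.norm_eq_integral_norm]
    exact J.le_opNorm _
  have h3 := stepC hK hW T hT y
  rw [← hP] at h3
  have h4 : Real.sqrt (2 * ∑ j, ‖y j‖ ^ 2) = Real.sqrt 2 * Real.sqrt (∑ j, ‖y j‖ ^ 2) :=
    Real.sqrt_mul (by norm_num) _
  rw [h4] at h3
  rw [integral_const_mul] at h1
  have h5 : ∑ k : Fin (2 * M) → (Fin M × Bool), ‖∑ m, sv y (k m)‖
      ≤ (K * ‖T‖ * P * (Real.sqrt 2 * Real.sqrt (∑ j, ‖y j‖ ^ 2))) / c := by
    rw [le_div_iff₀ hc, mul_comm]; exact h3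
  have h6 := mul_le_mul_of_nonneg_left h5 (norm_nonneg J)
  have h7 : Real.sqrt 2 / 4 * P * ∫ ω, Real.sqrt (∑ j, ‖(J (y j) : Ω → 𝕜) ω‖ ^ 2) ∂μ
      ≤ Real.sqrt 2 / 4 * P * ((4 * ‖J‖ * (K * ‖T‖) / c) * Real.sqrt (∑ j, ‖y j‖ ^ 2)) := by
    refine h1.trans (h2.trans (h6.trans (le_of_eq ?_)))
    field_simp
  have hs2 : 0 < Real.sqrt 2 := Real.sqrt_pos.2 (by norm_num)
  exact le_of_mul_le_mul_left h7 (by positivity)

/-- Evaluation functionals through a Hamel basis. -/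
lemma exists_eval (J : X →L[𝕜] Lp 𝕜 1 μ) :
    ∃ ev : Ω → (X →ₗ[𝕜] 𝕜), ∀ x : X, ∀ᵐ ω ∂μ, (J x : Ω → 𝕜) ω = ev ω x := by
  classical
  let b := Module.Basis.ofVectorSpace 𝕜 X
  refine ⟨fun ω => b.constr 𝕜 (fun i => (J (b i) : Ω → 𝕜) ω), fun x => ?_⟩
  have hx : J x = ∑ i ∈ (b.repr x).support, (b.repr x i) • J (b i) := by
    conv_lhs => rw [← b.linearCombination_repr x]
    rw [Finsupp.linearCombination_apply, Finsupp.sum, map_sum]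
    simp only [map_smul]
  have h1 : ∀ᵐ ω ∂μ, (J x : Ω → 𝕜) ω
      = ∑ i ∈ (b.repr x).support, ((b.repr x i • J (b i) : Lp 𝕜 1 μ) : Ω → 𝕜) ω := by
    rw [hx]
    exact Lp.coeFn_fun_finsetSum _ _
  have h2 : ∀ᵐ ω ∂μ, ∀ i ∈ (b.repr x).support,
      ((b.repr x i • J (b i) : Lp 𝕜 1 μ) : Ω → 𝕜) ω = b.repr x i • (J (b i) : Ω → 𝕜) ω := by
    refine (Finset.eventually_all (b.repr x).support).2 (fun i _ => ?_)
    exact Lp.coeFn_smul _ _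
  filter_upwards [h1, h2] with ω g1 g2
  rw [g1, Finset.sum_congr rfl g2, Module.Basis.constr_apply, Finsupp.sum]

theorem stepF (J : X →L[𝕜] Lp 𝕜 1 μ) {c : ℝ} (hc : 0 < c) (hJ : ∀ x, c * ‖x‖ ≤ ‖J x‖)
    {A : ℝ}
    (hE : ∀ (M : ℕ) (y : Fin M → X), ∫ ω, Real.sqrt (∑ j, ‖(J (y j) : Ω → 𝕜) ω‖ ^ 2) ∂μ
      ≤ A * Real.sqrt (∑ j, ‖y j‖ ^ 2))
    {M M' : ℕ} (x : Fin M → X) (y : Fin M' → X)
    (h : ∀ ξ : X →ₗ[𝕜] 𝕜, ∑ i, ‖ξ (x i)‖ ^ 2 ≤ ∑ j, ‖ξ (y j)‖ ^ 2) :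
    ∑ i, ‖x i‖ ^ 2 ≤ (A / c) ^ 2 * ∑ j, ‖y j‖ ^ 2 := by
  obtain ⟨ev, hev⟩ := exists_eval (μ := μ) J
  have h1 : ∫ ω, Real.sqrt (∑ j, ‖(J (x j) : Ω → 𝕜) ω‖ ^ 2) ∂μ
      ≤ ∫ ω, Real.sqrt (∑ j, ‖(J (y j) : Ω → 𝕜) ω‖ ^ 2) ∂μ := by
    apply integral_mono_of_nonneg
    · exact Filter.Eventually.of_forall (fun ω => Real.sqrt_nonneg _)
    · exact sq_integrable _
    · have a1 : ∀ᵐ ω ∂μ, ∀ i, (J (x i) : Ω → 𝕜) ω = ev ω (x i) := by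
        rw [ae_all_iff]; exact fun i => hev _
      have a2 : ∀ᵐ ω ∂μ, ∀ i, (J (y i) : Ω → 𝕜) ω = ev ω (y i) := by
        rw [ae_all_iff]; exact fun i => hev _
      filter_upwards [a1, a2] with ω b1 b2
      simp only [b1, b2]
      exact Real.sqrt_le_sqrt (h (ev ω))
  have h2 := mink (fun i => J (x i))
  have h3 : c * Real.sqrt (∑ i, ‖x i‖ ^ 2) ≤ Real.sqrt (∑ i, ‖J (x i)‖ ^ 2) := by
    apply Real.le_sqrt_of_sq_le
    rw [mul_pow, Real.sq_sqrt (Finset.sum_nonneg (fun i _ => sq_nonneg _)), Finset.mul_sum]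
    refine Finset.sum_le_sum (fun i _ => ?_)
    rw [← mul_pow]
    exact pow_le_pow_left₀ (by positivity) (hJ _) 2
  have h4 : c * Real.sqrt (∑ i, ‖x i‖ ^ 2) ≤ A * Real.sqrt (∑ j, ‖y j‖ ^ 2) :=
    h3.trans (h2.trans (h1.trans (hE _ _)))
  have h5 : Real.sqrt (∑ i, ‖x i‖ ^ 2) ≤ (A / c) * Real.sqrt (∑ j, ‖y j‖ ^ 2) := by
    rw [div_mul_eq_mul_div, le_div_iff₀ hc, mul_comm]; exact h4
  have h6 := pow_le_pow_left₀ (Real.sqrt_nonneg _) h5 2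
  rw [mul_pow, Real.sq_sqrt (Finset.sum_nonneg (fun i _ => sq_nonneg _)),
    Real.sq_sqrt (Finset.sum_nonneg (fun i _ => sq_nonneg _))] at h6
  exact h6

end

end Pool.Agent.Lib.MP_cdd7b4_an.H85
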