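import Pool.Agent.Lib.MP_cdd7b4_an.H85.Defs
import Pool.Agent.Lib.MP_cdd7b4_an.H85.Hilb
import Pool.Agent.Lib.MP_cdd7b4_an.H85.StepF

set_option autoImplicit false

namespace Pool.Agent.Lib.MP_cdd7b4_an.H85

open MeasureTheory Set
open scoped BigOperators

universe u

variable {𝕜 : Type*} [RCLike 𝕜] {X : Type u} [NormedAddCommGroup X] [NormedSpace 𝕜 X]

theorem main_general [CompleteSpace X] {K : ℝ} (hK : 0 ≤ K)
    {W : Type*} [NormedAddCommGroup W] [NormedSpace 𝕜 W] (hW : PP K W)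
    {Ω : Type*} [MeasurableSpace Ω] (μ : Measure Ω)
    (hX : ContainsCopy 𝕜 (Lp 𝕜 1 μ) X)
    (h : ContainsCopy 𝕜 W (lp (fun _ : ℕ => X) 2)) :
    ∃ (E : Type u) (_ : NormedAddCommGroup E) (_ : InnerProductSpace 𝕜 E) (_ : CompleteSpace E),
      Nonempty (X ≃L[𝕜] E) := by
  obtain ⟨J, c₁, hc₁, hJ⟩ := hX
  obtain ⟨T, c₂, hc₂, hT⟩ := h
  refine hilbert_of_sums (𝕜 := 𝕜) (K := ((4 * ‖J‖ * (K * ‖T‖) / c₂) / c₁) ^ 2)
    (fun M M' x y hxy => ?_)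
  exact stepF J hc₁ hJ (fun M y => stepE hK hW T hc₂ hT J y) x y hxy

theorem main_one [CompleteSpace X] {Ω : Type*} [MeasurableSpace Ω] (μ : Measure Ω)
    {S : Type*} [MeasurableSpace S] (ν : Measure S)
    (hX : ContainsCopy 𝕜 (Lp 𝕜 1 μ) X)
    (h : ContainsCopy 𝕜 (Lp X 1 ν) (lp (fun _ : ℕ => X) 2)) :
    ∃ (E : Type u) (_ : NormedAddCommGroup E) (_ : InnerProductSpace 𝕜 E) (_ : CompleteSpace E),
      Nonempty (X ≃L[𝕜] E) := by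
  have hW : PP 2 (Lp (Lp 𝕜 1 μ) 1 ν) := PP_Lp (PP_Lp (PP_rclike 𝕜) μ) ν
  refine main_general (𝕜 := 𝕜) (by norm_num) hW μ hX ?_
  obtain ⟨J, c₁, hc₁, hJ⟩ := hX
  obtain ⟨T, c₂, hc₂, hT⟩ := h
  refine ⟨(J.compLpL 1 ν).comp T, c₁ * c₂, by positivity, fun z => ?_⟩
  have h1 : c₁ * ‖T z‖ ≤ ‖J.compLpL 1 ν (T z)‖ := by
    rw [L1.norm_eq_integral_norm, L1.norm_eq_integral_norm, ← integral_const_mul]
    apply integral_mono_ae
    · exact (L1.integrable_coeFn _).norm.const_mul _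
    · exact (L1.integrable_coeFn _).norm
    · filter_upwards [J.coeFn_compLpL (p := 1) (μ := ν) (T z)] with a ha
      rw [ha]
      exact hJ _
  calc c₁ * c₂ * ‖z‖ = c₁ * (c₂ * ‖z‖) := by ring
    _ ≤ c₁ * ‖T z‖ := mul_le_mul_of_nonneg_left (hT z) hc₁.le
    _ ≤ _ := h1

end Pool.Agent.Lib.MP_cdd7b4_an.H85
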