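import Mathlib

set_option autoImplicit false

namespace Pool.Agent.Lib.MP_cdd7b4_an.H85

open scoped BigOperators

lemma sum_cons {κ : Type*} [Fintype κ] {R : Type*} [AddCommMonoid R] (z : κ → ℝ) (N : ℕ)
    (F : ℝ → R) :
    ∑ k : Fin (N + 1) → κ, F (∑ m, z (k m)) = ∑ x : κ, ∑ k : Fin N → κ, F (z x + ∑ m, z (k m)) := by
  rw [← (Fin.consEquiv (fun _ : Fin (N+1) => κ)).sum_comp, Fintype.sum_prod_type]
  refine Finset.sum_congr rfl (fun x _ => Finset.sum_congr rfl (fun k _ => ?_))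
  simp [Fin.consEquiv, Fin.sum_univ_succ]

section

variable {κ : Type*} [Fintype κ] (z : κ → ℝ)

lemma mom1 (h1 : ∑ x, z x = 0) (N : ℕ) : ∑ k : Fin N → κ, (∑ m, z (k m)) = 0 := by
  induction N with
  | zero => simp
  | succ N ih =>
    have := sum_cons z N (fun s => s)
    rw [this]
    simp only [Finset.sum_add_distrib]
    rw [Finset.sum_comm]
    simp [h1, ih]

lemma mom2 (h1 : ∑ x, z x = 0) (N : ℕ) :
    (Fintype.card κ : ℝ) * ∑ k : Fin N → κ, (∑ m, z (k m)) ^ 2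
      = N * (∑ x, z x ^ 2) * (Fintype.card κ : ℝ) ^ N := by
  induction N with
  | zero => simp
  | succ N ih =>
    have := sum_cons z N (fun s => s ^ 2)
    rw [this]
    have e : ∀ x : κ, ∑ k : Fin N → κ, (z x + ∑ m, z (k m)) ^ 2
        = (Fintype.card κ : ℝ) ^ N * z x ^ 2 + 2 * z x * (∑ k : Fin N → κ, ∑ m, z (k m))
          + ∑ k : Fin N → κ, (∑ m, z (k m)) ^ 2 := by
      intro x
      rw [Finset.mul_sum]
      simp only [add_sq, Finset.sum_add_distrib]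
      simp
    simp only [e, mom1 z h1 N, mul_zero, add_zero]
    rw [Finset.sum_add_distrib, ← Finset.mul_sum, Finset.sum_const, Finset.card_univ,
      nsmul_eq_mul, ih]
    push_cast
    ring

lemma mom3 (h1 : ∑ x, z x = 0) (h3 : ∑ x, z x ^ 3 = 0) (N : ℕ) :
    ∑ k : Fin N → κ, (∑ m, z (k m)) ^ 3 = 0 := by
  induction N with
  | zero => simp
  | succ N ih =>
    have := sum_cons z N (fun s => s ^ 3)
    rw [this]
    have e : ∀ x : κ, ∑ k : Fin N → κ, (z x + ∑ m, z (k m)) ^ 3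
        = (Fintype.card κ : ℝ) ^ N * z x ^ 3 + 3 * z x ^ 2 * (∑ k : Fin N → κ, ∑ m, z (k m))
          + (3 * ∑ k : Fin N → κ, (∑ m, z (k m)) ^ 2) * z x
          + ∑ k : Fin N → κ, (∑ m, z (k m)) ^ 3 := by
      intro x
      rw [Finset.mul_sum, Finset.mul_sum, Finset.sum_mul]
      have : (Fintype.card κ : ℝ) ^ N * z x ^ 3 = ∑ k : Fin N → κ, z x ^ 3 := by simp
      rw [this]
      simp only [← Finset.sum_add_distrib]
      refine Finset.sum_congr rfl (fun k _ => ?_)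
      ring
    simp only [e, mom1 z h1 N, mul_zero, add_zero, ih]
    rw [Finset.sum_add_distrib, ← Finset.mul_sum, ← Finset.mul_sum, h1, h3]
    ring

lemma mom4 (h1 : ∑ x, z x = 0) (h3 : ∑ x, z x ^ 3 = 0) (N : ℕ) :
    (Fintype.card κ : ℝ) ^ 2 * ∑ k : Fin N → κ, (∑ m, z (k m)) ^ 4
      = (N * (∑ x, z x ^ 4) * (Fintype.card κ : ℝ) + 3 * N * (N - 1) * (∑ x, z x ^ 2) ^ 2)
        * (Fintype.card κ : ℝ) ^ N := by
  induction N with
  | zero => simp
  | succ N ih =>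
    have := sum_cons z N (fun s => s ^ 4)
    rw [this]
    have e : ∀ x : κ, ∑ k : Fin N → κ, (z x + ∑ m, z (k m)) ^ 4
        = (Fintype.card κ : ℝ) ^ N * z x ^ 4 + 4 * z x ^ 3 * (∑ k : Fin N → κ, ∑ m, z (k m))
          + (6 * ∑ k : Fin N → κ, (∑ m, z (k m)) ^ 2) * z x ^ 2
          + 4 * z x * (∑ k : Fin N → κ, (∑ m, z (k m)) ^ 3)
          + ∑ k : Fin N → κ, (∑ m, z (k m)) ^ 4 := by
      intro x
      rw [Finset.mul_sum, Finset.mul_sum, Finset.sum_mul, Finset.mul_sum]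
      have : (Fintype.card κ : ℝ) ^ N * z x ^ 4 = ∑ k : Fin N → κ, z x ^ 4 := by simp
      rw [this]
      simp only [← Finset.sum_add_distrib]
      refine Finset.sum_congr rfl (fun k _ => ?_)
      ring
    simp only [e, mom1 z h1 N, mom3 z h1 h3 N, mul_zero, add_zero]
    rw [Finset.sum_add_distrib, Finset.sum_add_distrib, ← Finset.mul_sum, ← Finset.mul_sum,
      Finset.sum_const, Finset.card_univ, nsmul_eq_mul]
    have h2 := mom2 z h1 N
    push_cast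
    linear_combination (6 * (∑ x, z x ^ 2) * (Fintype.card κ : ℝ)) * h2
      + (Fintype.card κ : ℝ) * ih

lemma quart (t s : ℝ) (ht : 0 < t) : s ^ 2 / (2 * t) - s ^ 4 / (54 * t ^ 3) ≤ |s| := by
  have h1 : s ^ 2 = |s| ^ 2 := (sq_abs s).symm
  have h2 : s ^ 4 = |s| ^ 4 := by
    rw [show s ^ 4 = (s ^ 2) ^ 2 by ring, h1]; ring
  rw [h1, h2]
  have hs : 0 ≤ |s| := abs_nonneg s
  generalize |s| = u at hs
  rw [div_sub_div _ _ (by positivity) (by positivity), div_le_iff₀ (by positivity)]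
  have h : 0 ≤ u * t * ((u - 3 * t) ^ 2 * (u + 6 * t)) := by positivity
  have e : u * (2 * t * (54 * t ^ 3)) - (u ^ 2 * (54 * t ^ 3) - 2 * t * u ^ 4)
      = 2 * (u * t * ((u - 3 * t) ^ 2 * (u + 6 * t))) := by ring
  linarith

theorem lower_ineq (σ : κ → κ) (hσ : Function.Involutive σ) (hz : ∀ k, z (σ k) = - z k)
    {N : ℕ} (hN : N = Fintype.card κ) :
    1 / 2 * (N:ℝ) ^ N * Real.sqrt (∑ x, z x ^ 2) ≤ ∑ k : Fin N → κ, |∑ m, z (k m)| := by
  have hodd : ∀ p : ℕ, Odd p → ∑ x, z x ^ p = 0 := by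
    intro p hp
    have a1 : ∑ x : κ, z x ^ p = ∑ x : κ, z (σ x) ^ p :=
      (Equiv.sum_comp hσ.toPerm (fun x => z x ^ p)).symm
    have a2 : ∑ x : κ, z (σ x) ^ p = - ∑ x : κ, z x ^ p := by
      rw [← Finset.sum_neg_distrib]
      refine Finset.sum_congr rfl (fun x _ => ?_)
      rw [hz, hp.neg_pow]
    linarith
  have h1 : ∑ x, z x = 0 := by simpa using hodd 1 odd_one
  have h3 : ∑ x, z x ^ 3 = 0 := hodd 3 (by decide)
  have hA : 0 ≤ ∑ x, z x ^ 2 := Finset.sum_nonneg (fun x _ => sq_nonneg _)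
  rcases hA.eq_or_lt with hA0 | hApos
  · rw [← hA0]
    simp only [Real.sqrt_zero, mul_zero]
    exact Finset.sum_nonneg (fun k _ => abs_nonneg _)
  have hκ : 0 < Fintype.card κ := by
    rw [Fintype.card_pos_iff]
    by_contra hne
    rw [not_nonempty_iff] at hne
    simp at hApos
  have hNpos : (0:ℝ) < N := by rw [hN]; exact_mod_cast hκ
  have m2 := mom2 z h1 N
  have m4 := mom4 z h1 h3 N
  rw [← hN] at m2 m4
  have h4 : ∑ x, z x ^ 4 ≤ (∑ x, z x ^ 2) ^ 2 := by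
    have : ∑ x, z x ^ 4 = ∑ x, (z x ^ 2) ^ 2 := Finset.sum_congr rfl (fun x _ => by ring)
    rw [this, sq (∑ x, z x ^ 2), Finset.sum_mul]
    refine Finset.sum_le_sum (fun x _ => ?_)
    rw [sq (z x ^ 2)]
    apply mul_le_mul_of_nonneg_left _ (sq_nonneg _)
    exact Finset.single_le_sum (f := fun x => z x ^ 2) (fun y _ => sq_nonneg _) (Finset.mem_univ x)
  set A := ∑ x, z x ^ 2 with hAdef
  set F2 := ∑ k : Fin N → κ, (∑ m, z (k m)) ^ 2
  set F4 := ∑ k : Fin N → κ, (∑ m, z (k m)) ^ 4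
  have m2' : F2 = A * (N:ℝ) ^ N := by
    have : (N:ℝ) * F2 = N * (A * (N:ℝ) ^ N) := by rw [m2]; ring
    exact mul_left_cancel₀ hNpos.ne' this
  have m4' : F4 ≤ 4 * A ^ 2 * (N:ℝ) ^ N := by
    have hP : (0:ℝ) < (N:ℝ) ^ N := by positivity
    have : (N:ℝ) ^ 2 * F4 ≤ (N:ℝ) ^ 2 * (4 * A ^ 2 * (N:ℝ) ^ N) := by
      rw [m4]
      have : ((N:ℝ) * (∑ x, z x ^ 4) * (N : ℝ) + 3 * N * (N - 1) * A ^ 2)
          ≤ (N:ℝ) ^ 2 * (4 * A ^ 2) := by
        have e1 : (N:ℝ) * (∑ x, z x ^ 4) * (N : ℝ) ≤ (N:ℝ) * A ^ 2 * N := by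
          apply mul_le_mul_of_nonneg_right _ hNpos.le
          exact mul_le_mul_of_nonneg_left h4 hNpos.le
        have e2 : 3 * (N:ℝ) * (N - 1) * A ^ 2 ≤ 3 * N * N * A ^ 2 := by
          apply mul_le_mul_of_nonneg_right _ (sq_nonneg _)
          nlinarith
        nlinarith
      calc _ ≤ (N:ℝ) ^ 2 * (4 * A ^ 2) * (N:ℝ) ^ N := mul_le_mul_of_nonneg_right this hP.le
        _ = _ := by ring
    exact le_of_mul_le_mul_left this (by positivity)
  set r := Real.sqrt A with hr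
  have hrpos : 0 < r := Real.sqrt_pos.2 hApos
  have hr2 : r ^ 2 = A := Real.sq_sqrt hApos.le
  set t := 2 / 3 * r with ht
  have htpos : 0 < t := by positivity
  have hsum : F2 / (2 * t) - F4 / (54 * t ^ 3) ≤ ∑ k : Fin N → κ, |∑ m, z (k m)| := by
    have : F2 / (2 * t) - F4 / (54 * t ^ 3)
        = ∑ k : Fin N → κ, ((∑ m, z (k m)) ^ 2 / (2 * t) - (∑ m, z (k m)) ^ 4 / (54 * t ^ 3)) := by
      rw [Finset.sum_sub_distrib, Finset.sum_div, Finset.sum_div]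
    rw [this]
    exact Finset.sum_le_sum (fun k _ => quart t _ htpos)
  refine le_trans ?_ hsum
  have h5 : F4 / (54 * t ^ 3) ≤ (4 * A ^ 2 * (N:ℝ) ^ N) / (54 * t ^ 3) :=
    div_le_div_of_nonneg_right m4' (by positivity)
  have h6 : (4 * A ^ 2 * (N:ℝ) ^ N) / (54 * t ^ 3) = 1 / 4 * (N:ℝ) ^ N * r := by
    rw [ht, ← hr2]
    field_simp
    ring
  have h7 : F2 / (2 * t) = 3 / 4 * (N:ℝ) ^ N * r := by
    rw [m2', ht, ← hr2]
    field_simp
    ring
  rw [h7]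
  linarith

end

end Pool.Agent.Lib.MP_cdd7b4_an.H85
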