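import Mathlib

set_option autoImplicit false

namespace Pool.Agent.Lib.MP_cdd7b4_an.H85

open MeasureTheory Set
open scoped BigOperators NNReal ENNReal

/-- the density `2 / s³` -/
noncomputable def dens (s : ℝ) : ℝ≥0 := Real.toNNReal (2 / s ^ 3)

/-- The law with density `2 s⁻³` on `(1, ∞)`. -/
noncomputable def par : Measure ℝ := (volume.restrict (Ioi (1:ℝ))).withDensity (fun s => dens s)

lemma dens_meas : Measurable dens := by
  unfold dens
  fun_prop

lemma cube_eq {s : ℝ} (hs : 0 < s) : s ^ (-3:ℝ) = 1 / s ^ 3 := by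
  rw [Real.rpow_neg hs.le, one_div]
  congr 1
  exact_mod_cast Real.rpow_natCast s 3

lemma par_Ioi {t : ℝ} (ht : 1 ≤ t) : par (Ioi t) = ENNReal.ofReal (1 / t ^ 2) := by
  have ht0 : 0 < t := by linarith
  unfold par
  rw [withDensity_apply _ measurableSet_Ioi, Measure.restrict_restrict measurableSet_Ioi]
  have h1 : Ioi t ∩ Ioi 1 = Ioi t := by
    rw [Ioi_inter_Ioi]
    congr 1
    exact max_eq_left ht
  rw [h1]
  have h2 : ∫⁻ s in Ioi t, (dens s : ℝ≥0∞) = ∫⁻ s in Ioi t, ENNReal.ofReal (2 * s ^ (-3:ℝ)) := by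
    apply setLIntegral_congr_fun measurableSet_Ioi
    intro s hs
    have hs0 : 0 < s := lt_trans ht0 hs
    show ((Real.toNNReal (2 / s ^ 3) : ℝ≥0) : ℝ≥0∞) = ENNReal.ofReal (2 * s ^ (-3:ℝ))
    rw [cube_eq hs0, mul_one_div]
    rfl
  rw [h2, ← ofReal_integral_eq_lintegral_ofReal]
  · rw [integral_const_mul, integral_Ioi_rpow_of_lt (by norm_num) ht0]
    congr 1
    have : t ^ ((-3:ℝ) + 1) = 1 / t ^ 2 := by
      rw [show (-3:ℝ) + 1 = -2 by norm_num, Real.rpow_neg ht0.le, one_div]
      congr 1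
      exact_mod_cast Real.rpow_natCast t 2
    rw [this]
    ring
  · exact (integrableOn_Ioi_rpow_of_lt (by norm_num) ht0).const_mul 2
  · refine (ae_restrict_iff' measurableSet_Ioi).2 (Filter.Eventually.of_forall (fun s hs => ?_))
    have hs0 : 0 < s := lt_trans ht0 hs
    show 0 ≤ 2 * s ^ (-3:ℝ)
    positivity

instance : IsProbabilityMeasure par := by
  constructor
  have h1 : par (Ioi 1) = 1 := by rw [par_Ioi le_rfl]; simp
  have h2 : par (Ioi 1)ᶜ = 0 := by
    unfold par
    rw [withDensity_apply _ measurableSet_Ioi.compl,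
      Measure.restrict_restrict measurableSet_Ioi.compl, compl_inter_self, Measure.restrict_empty]
    simp
  have h3 := measure_add_measure_compl (μ := par) (s := Ioi (1:ℝ)) measurableSet_Ioi
  rw [h1, h2] at h3
  rw [← h3]; simp

lemma par_gt_one : ∀ᵐ s ∂par, 1 < s := by
  have h2 : par (Ioi 1)ᶜ = 0 := by
    unfold par
    rw [withDensity_apply _ measurableSet_Ioi.compl,
      Measure.restrict_restrict measurableSet_Ioi.compl, compl_inter_self, Measure.restrict_empty]
    simp
  exact h2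

lemma par_Iic {t : ℝ} (ht : 1 ≤ t) : par (Iic t) = ENNReal.ofReal (1 - 1 / t ^ 2) := by
  have h3 := prob_compl_eq_one_sub (μ := par) (s := Ioi t) measurableSet_Ioi
  rw [compl_Ioi, par_Ioi ht] at h3
  rw [h3, ← ENNReal.ofReal_one, ← ENNReal.ofReal_sub _ (by positivity)]

lemma integral_par (f : ℝ → ℝ) : ∫ s, f s ∂par = ∫ s in Ioi (1:ℝ), 2 / s ^ 3 * f s := by
  unfold par
  rw [integral_withDensity_eq_integral_smul dens_meas]
  apply setIntegral_congr_fun measurableSet_Ioi
  intro s hs
  have hs0 : (0:ℝ) < s := lt_trans one_pos hs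
  show (dens s : ℝ) • f s = _
  rw [smul_eq_mul, dens, Real.coe_toNNReal _ (by positivity)]

lemma integrable_par_iff (f : ℝ → ℝ) :
    Integrable f par ↔ IntegrableOn (fun s => 2 / s ^ 3 * f s) (Ioi 1) := by
  unfold par
  rw [integrable_withDensity_iff_integrable_smul dens_meas]
  apply integrableOn_congr_fun _ measurableSet_Ioi
  intro s hs
  have hs0 : (0:ℝ) < s := lt_trans one_pos hs
  show (dens s : ℝ) • f s = _
  rw [smul_eq_mul, dens, Real.coe_toNNReal _ (by positivity)]

lemma par_id_integrable : Integrable (fun s : ℝ => s) par := by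
  rw [integrable_par_iff]
  have h : IntegrableOn (fun s : ℝ => 2 * s ^ (-2:ℝ)) (Ioi 1) :=
    (integrableOn_Ioi_rpow_of_lt (by norm_num) one_pos).const_mul 2
  refine h.congr_fun (fun s hs => ?_) measurableSet_Ioi
  have hs0 : (0:ℝ) < s := lt_trans one_pos hs
  have : s ^ (-2:ℝ) = 1 / s ^ 2 := by
    rw [Real.rpow_neg hs0.le, one_div]
    congr 1
    exact_mod_cast Real.rpow_natCast s 2
  simp only [this]
  field_simp

/-- Expectation of `h (a s)` under the law. -/
lemma par_h {h : ℝ → ℝ} (h0 : ∀ s, 0 ≤ h s) (hi : IntegrableOn (fun s => h s / s ^ 3) (Ioi 0))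
    {a : ℝ} (ha : 0 < a) :
    Integrable (fun s => h (s * a)) par ∧
      ∫ s, h (s * a) ∂par ≤ 2 * a ^ 2 * ∫ s in Ioi (0:ℝ), h s / s ^ 3 := by
  set g : ℝ → ℝ := fun s => h s / s ^ 3 with hg
  have hpt : ∀ s : ℝ, 0 < s → 2 / s ^ 3 * h (s * a) = 2 * a ^ 3 * g (s * a) := by
    intro s hs
    simp only [hg]
    field_simp
  have hint : IntegrableOn (fun s => 2 * a ^ 3 * g (s * a)) (Ioi 1) := by
    apply Integrable.const_mul
    have h1 := (integrableOn_Ioi_comp_mul_right_iff g 1 ha).2
    simp only [one_mul] at h1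
    exact h1 (hi.mono_set (fun x hx => lt_trans ha hx))
  constructor
  · rw [integrable_par_iff]
    refine hint.congr_fun (fun s hs => ?_) measurableSet_Ioi
    exact (hpt s (lt_trans one_pos hs)).symm
  · rw [integral_par, setIntegral_congr_fun measurableSet_Ioi
      (fun s hs => hpt s (lt_trans one_pos hs)), integral_const_mul,
      integral_comp_mul_right_Ioi g 1 ha, one_mul, smul_eq_mul]
    have h2 : ∫ x in Ioi a, g x ≤ ∫ x in Ioi (0:ℝ), g x := by
      apply setIntegral_mono_set hi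
      · refine (ae_restrict_iff' measurableSet_Ioi).2
          (Filter.Eventually.of_forall (fun s hs => ?_))
        have hs' : (0:ℝ) < s := hs
        exact div_nonneg (h0 s) (by positivity)
      · exact LE.le.eventuallyLE (fun x hx => lt_trans ha hx)
    calc 2 * a ^ 3 * (a⁻¹ * ∫ x in Ioi a, g x) = 2 * a ^ 2 * ∫ x in Ioi a, g x := by
          field_simp
      _ ≤ _ := mul_le_mul_of_nonneg_left h2 (by positivity)

end Pool.Agent.Lib.MP_cdd7b4_an.H85
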