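import Mathlib

set_option autoImplicit false

namespace Pool.Agent.Lib.MP_cdd7b4_an.H85

open MeasureTheory Set
open scoped BigOperators

/-- The kernel `(1 - cos x) / x²`. -/
noncomputable def ker (x : ℝ) : ℝ := (1 - Real.cos x) / x ^ 2

/-- The integral of the kernel over the positive half line. -/
noncomputable def kC : ℝ := ∫ x in Ioi (0:ℝ), ker x

lemma ker_nonneg (x : ℝ) : 0 ≤ ker x :=
  div_nonneg (by linarith [Real.cos_le_one x]) (by positivity)

lemma ker_le_half (x : ℝ) : ker x ≤ 1 / 2 := by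
  unfold ker
  rcases eq_or_ne x 0 with rfl | hx
  · simp
  rw [div_le_iff₀ (by positivity)]
  have := Real.one_sub_sq_div_two_le_cos (x := x)
  linarith

lemma ker_le_two (x : ℝ) (hx : 0 < x) : ker x ≤ 2 * x ^ (-2:ℝ) := by
  unfold ker
  rw [Real.rpow_neg hx.le, div_eq_mul_inv]
  have h2 : x ^ (2:ℝ) = x ^ 2 := by exact_mod_cast Real.rpow_natCast x 2
  rw [h2]
  apply mul_le_mul_of_nonneg_right _ (by positivity)
  linarith [Real.neg_one_le_cos x]

lemma ker_measurable : Measurable ker := by
  unfold ker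
  fun_prop

lemma ker_integrable : IntegrableOn ker (Ioi 0) := by
  have h1 : IntegrableOn ker (Ioc 0 1) := by
    apply Measure.integrableOn_of_bounded (M := 1/2)
    · simp
    · exact ker_measurable.aestronglyMeasurable
    · refine Filter.Eventually.of_forall (fun x => ?_)
      rw [Real.norm_of_nonneg (ker_nonneg x)]
      exact ker_le_half x
  have h2 : IntegrableOn ker (Ioi 1) := by
    have h3 : IntegrableOn (fun x : ℝ => 2 * x ^ (-2:ℝ)) (Ioi 1) :=
      (integrableOn_Ioi_rpow_of_lt (by norm_num) (by norm_num)).const_mul 2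
    refine Integrable.mono' h3 ker_measurable.aestronglyMeasurable ?_
    refine (ae_restrict_iff' measurableSet_Ioi).2 (Filter.Eventually.of_forall (fun x hx => ?_))
    rw [Real.norm_of_nonneg (ker_nonneg x)]
    exact ker_le_two x (lt_trans one_pos hx)
  have : Ioi (0:ℝ) = Ioc 0 1 ∪ Ioi 1 := by
    rw [Ioc_union_Ioi_eq_Ioi (by norm_num)]
  rw [this]
  exact h1.union h2

lemma kC_pos : 0 < kC := by
  unfold kC
  have h : ∫ x in Ioc (1:ℝ) 2, ((1 - Real.cos 1) / 4) ≤ ∫ x in Ioc (1:ℝ) 2, ker x := by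
    apply setIntegral_mono_on
    · exact integrable_const _
    · exact ker_integrable.mono_set (fun x hx => lt_trans one_pos hx.1)
    · exact measurableSet_Ioc
    · intro x hx
      unfold ker
      have hx1 := hx.1
      have hx2 := hx.2
      have hc : Real.cos x ≤ Real.cos 1 := by
        apply Real.cos_le_cos_of_nonneg_of_le_pi (by norm_num) _ hx1.le
        linarith [Real.pi_gt_three]
      have hc1 : Real.cos 1 ≤ 1 := Real.cos_le_one 1
      rw [div_le_div_iff₀ (by norm_num) (by positivity)]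
      have : x ^ 2 ≤ 4 := by nlinarith
      nlinarith
  have h2 : ∫ x in Ioc (1:ℝ) 2, ker x ≤ ∫ x in Ioi (0:ℝ), ker x := by
    apply setIntegral_mono_set ker_integrable
    · exact Filter.Eventually.of_forall (fun x => ker_nonneg x)
    · exact LE.le.eventuallyLE (fun x hx => lt_trans one_pos hx.1)
  have h3 : (0:ℝ) < ∫ x in Ioc (1:ℝ) 2, ((1 - Real.cos 1) / 4) := by
    rw [setIntegral_const]
    have : Real.cos 1 < 1 := by
      have := Real.cos_one_le
      linarith
    simp
    linarith
  linarith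

lemma ker_scale_pt (u l : ℝ) (hu : u ≠ 0) (hl : 0 < l) :
    (1 - Real.cos (l * u)) / l ^ 2 = u ^ 2 * ker (|u| * l) := by
  unfold ker
  have h1 : Real.cos (|u| * l) = Real.cos (l * u) := by
    rcases abs_cases u with h | h
    · rw [h.1, mul_comm]
    · rw [h.1, neg_mul, Real.cos_neg, mul_comm]
  rw [h1, mul_pow, sq_abs]
  field_simp

lemma scale_integrable (u : ℝ) :
    IntegrableOn (fun l : ℝ => (1 - Real.cos (l * u)) / l ^ 2) (Ioi 0) := by
  rcases eq_or_ne u 0 with rfl | hu
  · simp
  have h1 : IntegrableOn (fun l : ℝ => u ^ 2 * ker (|u| * l)) (Ioi 0) := by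
    apply Integrable.const_mul
    have := (integrableOn_Ioi_comp_mul_left_iff ker 0 (abs_pos.2 hu)).2
    simp only [mul_zero] at this
    exact this ker_integrable
  refine h1.congr_fun (fun l hl => ?_) measurableSet_Ioi
  exact (ker_scale_pt u l hu hl).symm

lemma scale_integral (u : ℝ) :
    ∫ l in Ioi (0:ℝ), (1 - Real.cos (l * u)) / l ^ 2 = |u| * kC := by
  rcases eq_or_ne u 0 with rfl | hu
  · simp
  rw [setIntegral_congr_fun measurableSet_Ioi (fun l hl => ker_scale_pt u l hu hl)]
  rw [integral_const_mul, integral_comp_mul_left_Ioi ker 0 (abs_pos.2 hu), mul_zero]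
  have : (0:ℝ) < |u| := abs_pos.2 hu
  rw [smul_eq_mul, ← sq_abs]
  unfold kC
  field_simp

/-- product of the cosine sums. -/
lemma prod_cos {κ : Type*} [Fintype κ] (σ : κ → κ) (hσ : Function.Involutive σ) {N : ℕ}
    (z : Fin N → κ → ℝ) (hz : ∀ n k, z n (σ k) = - z n k) (l : ℝ) :
    ∑ k : Fin N → κ, Real.cos (l * ∑ n, z n (k n)) = ∏ n, ∑ x : κ, Real.cos (l * z n x) := by
  classical
  have hs : ∀ n, ∑ x : κ, Real.sin (l * z n x) = 0 := by
    intro n
    have h1 : ∑ x : κ, Real.sin (l * z n x) = ∑ x : κ, Real.sin (l * z n (σ x)) :=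
      (Equiv.sum_comp hσ.toPerm (fun x => Real.sin (l * z n x))).symm
    have h2 : ∑ x : κ, Real.sin (l * z n (σ x)) = - ∑ x : κ, Real.sin (l * z n x) := by
      rw [← Finset.sum_neg_distrib]
      refine Finset.sum_congr rfl (fun x _ => ?_)
      rw [hz, mul_neg, Real.sin_neg]
    linarith
  have hexp : ∀ n, ∑ x : κ, Complex.exp (((l * z n x : ℝ) : ℂ) * Complex.I)
      = ((∑ x : κ, Real.cos (l * z n x) : ℝ) : ℂ) := by
    intro n
    apply Complex.ext
    · simp only [Complex.re_sum, Complex.ofReal_re, Complex.exp_ofReal_mul_I_re]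
    · simp only [Complex.im_sum, Complex.ofReal_im, Complex.exp_ofReal_mul_I_im]
      exact hs n
  have hprod : ∏ n, ∑ x : κ, Complex.exp (((l * z n x : ℝ) : ℂ) * Complex.I)
      = ∑ k : Fin N → κ, Complex.exp (((l * ∑ n, z n (k n) : ℝ) : ℂ) * Complex.I) := by
    rw [Fintype.prod_sum]
    refine Finset.sum_congr rfl (fun k _ => ?_)
    rw [← Complex.exp_sum, ← Finset.sum_mul]
    congr 2
    push_cast
    rw [Finset.mul_sum]
  have hre := congrArg Complex.re hprod
  simp only [hexp, Complex.re_sum, Complex.exp_ofReal_mul_I_re] at hre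
  rw [← hre, ← Complex.ofReal_prod, Complex.ofReal_re]

lemma amgm {N : ℕ} (hN : Even N) (φ : Fin N → ℝ) :
    (N:ℝ) * ∏ n, φ n ≤ ∑ n, φ n ^ N := by
  rcases Nat.eq_zero_or_pos N with rfl | hpos
  · simp
  have hN0 : (N:ℝ) ≠ 0 := by positivity
  have h1 := Real.geom_mean_le_arith_mean_weighted Finset.univ (fun _ : Fin N => (1:ℝ) / N)
    (fun n => |φ n| ^ N) (fun _ _ => by positivity) (by simp [hN0])
    (fun _ _ => by positivity)
  have h2 : ∀ n : Fin N, (|φ n| ^ N) ^ ((1:ℝ) / N) = |φ n| := by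
    intro n
    rw [← Real.rpow_natCast, ← Real.rpow_mul (abs_nonneg _)]
    rw [mul_one_div_cancel hN0, Real.rpow_one]
  simp only [h2] at h1
  rw [← Finset.mul_sum] at h1
  have h3 : ∏ n, φ n ≤ ∏ n, |φ n| := by
    rw [← Finset.abs_prod]
    exact le_abs_self _
  have h4 : ∑ n, |φ n| ^ N = ∑ n, φ n ^ N :=
    Finset.sum_congr rfl (fun n _ => hN.pow_abs (φ n))
  rw [h4] at h1
  have h5 : ∏ n, φ n ≤ 1 / N * ∑ n, φ n ^ N := h3.trans h1
  calc (N:ℝ) * ∏ n, φ n ≤ N * (1 / N * ∑ n, φ n ^ N) := by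
        apply mul_le_mul_of_nonneg_left h5 (by positivity)
    _ = ∑ n, φ n ^ N := by field_simp

theorem scalar_ineq {κ : Type*} [Fintype κ] (σ : κ → κ) (hσ : Function.Involutive σ) {N : ℕ}
    (hN : Even N) (z : Fin N → κ → ℝ) (hz : ∀ n k, z n (σ k) = - z n k) :
    ∑ n, ∑ k : Fin N → κ, |∑ m, z n (k m)| ≤ N * ∑ k : Fin N → κ, |∑ n, z n (k n)| := by
  classical
  have hpos := kC_pos
  have key : (∑ n, ∑ k : Fin N → κ, |∑ m, z n (k m)|) * kC
      ≤ (N * ∑ k : Fin N → κ, |∑ n, z n (k n)|) * kC := by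
    have e1 : (∑ n, ∑ k : Fin N → κ, |∑ m, z n (k m)|) * kC
        = ∫ l in Ioi (0:ℝ), ∑ n, ∑ k : Fin N → κ, (1 - Real.cos (l * ∑ m, z n (k m))) / l ^ 2 := by
      rw [integral_finsetSum _ (fun n _ => integrable_finsetSum _
        (fun k _ => scale_integrable _)), Finset.sum_mul]
      refine Finset.sum_congr rfl (fun n _ => ?_)
      rw [integral_finsetSum _ (fun k _ => scale_integrable _), Finset.sum_mul]
      refine Finset.sum_congr rfl (fun k _ => ?_)
      rw [scale_integral]
    have e2 : ((N:ℝ) * ∑ k : Fin N → κ, |∑ n, z n (k n)|) * kC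
        = ∫ l in Ioi (0:ℝ), (N:ℝ) * ∑ k : Fin N → κ, (1 - Real.cos (l * ∑ n, z n (k n))) / l ^ 2 := by
      rw [integral_const_mul, integral_finsetSum _ (fun k _ => scale_integrable _), mul_assoc,
        Finset.sum_mul]
      congr 1
      refine Finset.sum_congr rfl (fun k _ => ?_)
      rw [scale_integral]
    rw [e1, e2]
    apply setIntegral_mono_on
    · exact integrable_finsetSum _ (fun n _ => integrable_finsetSum _
        (fun k _ => scale_integrable _))
    · exact (integrable_finsetSum _ (fun k _ => scale_integrable _)).const_mul _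
    · exact measurableSet_Ioi
    · intro l hl
      have hl' : (0:ℝ) < l := hl
      simp only [← Finset.sum_div]
      rw [← mul_div_assoc]
      apply div_le_div_of_nonneg_right _ (by positivity)
      simp only [Finset.sum_sub_distrib]
      have h1 : ∀ n : Fin N, ∑ k : Fin N → κ, Real.cos (l * ∑ m, z n (k m))
          = (∑ x : κ, Real.cos (l * z n x)) ^ N := by
        intro n
        rw [prod_cos σ hσ (fun _ => z n) (fun _ k => hz n k) l]
        simp
      have h2 := prod_cos σ hσ z hz l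
      rw [h2]
      simp only [h1]
      have h3 := amgm hN (fun n => ∑ x : κ, Real.cos (l * z n x))
      simp only [Finset.sum_const, Finset.card_univ, Fintype.card_fin, nsmul_eq_mul, mul_one,
        mul_sub] at h3 ⊢
      linarith
  exact le_of_mul_le_mul_right key hpos

end Pool.Agent.Lib.MP_cdd7b4_an.H85
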