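import Mathlib

set_option autoImplicit false

namespace Pool.Agent.Lib.MP_cdd7b4_an.H85

open Set
open scoped BigOperators

section
variable {𝕜 : Type*} [RCLike 𝕜] {X : Type*} [NormedAddCommGroup X] [NormedSpace 𝕜 X]

/-- weighted sum of squares of a functional. -/
noncomputable def Qf (ξ : X →ₗ[𝕜] 𝕜) : (X →₀ ℝ) →ₗ[ℝ] ℝ :=
  Finsupp.linearCombination ℝ (fun x => ‖ξ x‖ ^ 2)

/-- weighted sum of squares of the norm. -/
noncomputable def Qn (X : Type*) [NormedAddCommGroup X] : (X →₀ ℝ) →ₗ[ℝ] ℝ :=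
  Finsupp.linearCombination ℝ (fun x : X => ‖x‖ ^ 2)

/-- The family of vectors with weights. -/
noncomputable def fam (𝕜 : Type*) [RCLike 𝕜] {X : Type*} [NormedAddCommGroup X] [NormedSpace 𝕜 X]
    (u : X →₀ ℝ) (i : Fin u.support.card) : X :=
  ((Real.sqrt (u (u.support.equivFin.symm i)) : ℝ) : 𝕜) • (u.support.equivFin.symm i : X)

lemma fam_sum (u : X →₀ ℝ) (hu : ∀ x, 0 ≤ u x) (f : X → ℝ)
    (hf : ∀ (r : ℝ) (x : X), 0 ≤ r → f (((r : ℝ) : 𝕜) • x) = r ^ 2 * f x) :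
    ∑ i, f (fam 𝕜 u i) = Finsupp.linearCombination ℝ f u := by
  have h1 : ∀ i, f (fam 𝕜 u i)
      = (fun z : u.support => u z * f z) (u.support.equivFin.symm i) := by
    intro i
    unfold fam
    rw [hf _ _ (Real.sqrt_nonneg _), Real.sq_sqrt (hu _)]
  simp only [h1]
  rw [Equiv.sum_comp u.support.equivFin.symm (fun z : u.support => u z * f z)]
  rw [Finsupp.linearCombination_apply, Finsupp.sum,
    Finset.sum_coe_sort u.support (fun z => u z * f z)]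
  simp

lemma weighted {K : ℝ}
    (H : ∀ (M M' : ℕ) (x : Fin M → X) (y : Fin M' → X),
      (∀ ξ : X →ₗ[𝕜] 𝕜, ∑ i, ‖ξ (x i)‖ ^ 2 ≤ ∑ j, ‖ξ (y j)‖ ^ 2) →
        ∑ i, ‖x i‖ ^ 2 ≤ K * ∑ j, ‖y j‖ ^ 2)
    (u w : X →₀ ℝ) (hu : ∀ x, 0 ≤ u x) (hw : ∀ x, 0 ≤ w x)
    (h : ∀ ξ : X →ₗ[𝕜] 𝕜, Qf ξ u ≤ Qf ξ w) : Qn X u ≤ K * Qn X w := by
  have e1 : ∀ (v : X →₀ ℝ) (hv : ∀ x, 0 ≤ v x) (ξ : X →ₗ[𝕜] 𝕜),
      ∑ i, ‖ξ (fam 𝕜 v i)‖ ^ 2 = Qf ξ v := by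
    intro v hv ξ
    refine fam_sum (𝕜 := 𝕜) v hv (fun x => ‖ξ x‖ ^ 2) (fun r x hr => ?_)
    simp only [map_smul, norm_smul, mul_pow, RCLike.norm_ofReal, sq_abs]
  have e2 : ∀ (v : X →₀ ℝ) (hv : ∀ x, 0 ≤ v x), ∑ i, ‖fam 𝕜 v i‖ ^ 2 = Qn X v := by
    intro v hv
    refine fam_sum (𝕜 := 𝕜) v hv (fun x => ‖x‖ ^ 2) (fun r x hr => ?_)
    simp only [norm_smul, mul_pow, RCLike.norm_ofReal, sq_abs]
  have := H _ _ (fam 𝕜 u) (fam 𝕜 w) (fun ξ => by rw [e1 u hu, e1 w hw]; exact h ξ)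
  rwa [e2 u hu, e2 w hw] at this

/-- the admissible costs. -/
def costs (𝕜 : Type*) [RCLike 𝕜] {X : Type*} [NormedAddCommGroup X] [NormedSpace 𝕜 X]
    (K : ℝ) (v : X →₀ ℝ) : Set ℝ :=
  {s | ∃ w u : X →₀ ℝ, (∀ x, 0 ≤ w x) ∧ (∀ x, 0 ≤ u x) ∧
    (∀ ξ : X →ₗ[𝕜] 𝕜, Qf ξ v ≤ Qf ξ w - Qf ξ u) ∧ s = K * Qn X w - Qn X u}

lemma costs_add {K : ℝ} {v v' : X →₀ ℝ} {s s' : ℝ} (h : s ∈ costs 𝕜 K v) (h' : s' ∈ costs 𝕜 K v') :
    s + s' ∈ costs 𝕜 K (v + v') := by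
  obtain ⟨w, u, a1, a2, a3, rfl⟩ := h
  obtain ⟨w', u', b1, b2, b3, rfl⟩ := h'
  refine ⟨w + w', u + u', fun x => add_nonneg (a1 x) (b1 x), fun x => add_nonneg (a2 x) (b2 x),
    fun ξ => ?_, ?_⟩
  · rw [map_add, map_add, map_add]
    linarith [a3 ξ, b3 ξ]
  · rw [map_add, map_add]; ring

lemma costs_smul {K : ℝ} {v : X →₀ ℝ} {s c : ℝ} (hc : 0 ≤ c) (h : s ∈ costs 𝕜 K v) :
    c * s ∈ costs 𝕜 K (c • v) := by
  obtain ⟨w, u, a1, a2, a3, rfl⟩ := h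
  refine ⟨c • w, c • u, fun x => mul_nonneg hc (a1 x), fun x => mul_nonneg hc (a2 x),
    fun ξ => ?_, ?_⟩
  · rw [map_smul, map_smul, map_smul, smul_eq_mul, smul_eq_mul, smul_eq_mul]
    nlinarith [a3 ξ]
  · rw [map_smul, map_smul, smul_eq_mul, smul_eq_mul]; ring

lemma costs_nonempty (K : ℝ) (v : X →₀ ℝ) : (costs 𝕜 K v).Nonempty := by
  refine ⟨_, v.mapRange (fun r => max r 0) (by simp), v.mapRange (fun r => max (-r) 0) (by simp),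
    fun x => ?_, fun x => ?_, fun ξ => ?_, rfl⟩
  · simp
  · simp
  · rw [← map_sub]
    apply le_of_eq
    congr 1
    ext x
    simp only [Finsupp.sub_apply, Finsupp.mapRange_apply]
    rcases le_total 0 (v x) with h | h
    · rw [max_eq_left h, max_eq_right (by linarith)]; ring
    · rw [max_eq_right h, max_eq_left (by linarith)]; ring

section
variable {K : ℝ}
    (H : ∀ (M M' : ℕ) (x : Fin M → X) (y : Fin M' → X),
      (∀ ξ : X →ₗ[𝕜] 𝕜, ∑ i, ‖ξ (x i)‖ ^ 2 ≤ ∑ j, ‖ξ (y j)‖ ^ 2) →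
        ∑ i, ‖x i‖ ^ 2 ≤ K * ∑ j, ‖y j‖ ^ 2)
include H

lemma costs_zero {s : ℝ} (h : s ∈ costs 𝕜 K (0 : X →₀ ℝ)) : 0 ≤ s := by
  obtain ⟨w, u, a1, a2, a3, rfl⟩ := h
  have := weighted H u w a2 a1 (fun ξ => by
    have := a3 ξ
    rw [map_zero] at this
    linarith)
  linarith

lemma costs_bdd (v : X →₀ ℝ) : BddBelow (costs 𝕜 K v) := by
  obtain ⟨s', hs'⟩ := costs_nonempty (𝕜 := 𝕜) K (-v)
  refine ⟨-s', fun s hs => ?_⟩
  have := costs_add hs hs'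
  rw [add_neg_cancel] at this
  linarith [costs_zero H this]

/-- The separation step: a linear functional. -/
theorem exists_functional :
    ∃ g : (X →₀ ℝ) →ₗ[ℝ] ℝ, ∀ v s, s ∈ costs 𝕜 K v → g v ≤ s := by
  classical
  set p : (X →₀ ℝ) → ℝ := fun v => sInf (costs 𝕜 K v) with hp
  have hle : ∀ v s, s ∈ costs 𝕜 K v → p v ≤ s := fun v s hs => csInf_le (costs_bdd H v) hs
  have hadd : ∀ v v', p (v + v') ≤ p v + p v' := by
    intro v v'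
    have h1 : ∀ s' ∈ costs 𝕜 K v', p (v + v') - p v ≤ s' := by
      intro s' hs'
      have : p (v + v') - s' ≤ p v := by
        refine le_csInf (costs_nonempty K v) (fun s hs => ?_)
        linarith [hle _ _ (costs_add hs hs')]
      linarith
    have h2 : p (v + v') - p v ≤ p v' := le_csInf (costs_nonempty K v') h1
    linarith
  have hle2 : ∀ c : ℝ, 0 < c → ∀ v, p (c • v) ≤ c * p v := by
    intro c hc v
    have : p (c • v) / c ≤ p v := by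
      refine le_csInf (costs_nonempty K v) (fun s hs => ?_)
      rw [div_le_iff₀ hc, mul_comm]
      exact hle _ _ (costs_smul hc.le hs)
    rw [div_le_iff₀ hc, mul_comm] at this
    exact this
  have hhom : ∀ c : ℝ, 0 < c → ∀ v, p (c • v) = c * p v := by
    intro c hc v
    refine le_antisymm (hle2 c hc v) ?_
    have := hle2 c⁻¹ (inv_pos.2 hc) (c • v)
    rw [smul_smul, inv_mul_cancel₀ hc.ne', one_smul] at this
    calc c * p v ≤ c * (c⁻¹ * p (c • v)) := mul_le_mul_of_nonneg_left this hc.le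
      _ = p (c • v) := by field_simp
  obtain ⟨g, -, hg⟩ := exists_extension_of_le_sublinear (⊥ : (X →₀ ℝ) →ₗ.[ℝ] ℝ) p hhom hadd (by
    rintro ⟨x, hx⟩
    have hx0 : x = 0 := (Submodule.mem_bot ℝ).1 hx
    subst hx0
    have e : ((⊥ : (X →₀ ℝ) →ₗ.[ℝ] ℝ) ⟨0, hx⟩) = 0 := by
      exact LinearPMap.map_zero _
    rw [e]
    exact le_csInf (costs_nonempty K 0) (fun s hs => costs_zero H hs))
  exact ⟨g, fun v s hs => (hg v).trans (hle v s hs)⟩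

end

end

end Pool.Agent.Lib.MP_cdd7b4_an.H85
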