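import Pool.Agent.Lib.MP_cdd7b4_an.H85.Pareto
import Pool.Agent.Lib.MP_cdd7b4_an.H85.Main1

set_option autoImplicit false

namespace Pool.Agent.Lib.MP_cdd7b4_an.H85

open MeasureTheory Set
open scoped BigOperators NNReal ENNReal

/-- The product law. -/
noncomputable def PrL : Measure (ℕ → ℝ) := Measure.infinitePi (fun _ => par)

instance : IsProbabilityMeasure PrL := by unfold PrL; infer_instance

lemma PrL_eval (n : ℕ) : MeasurePreserving (fun ω : ℕ → ℝ => ω n) PrL par := by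
  unfold PrL
  exact measurePreserving_eval_infinitePi _ n

section
variable {𝕜 : Type*} [RCLike 𝕜] {X : Type*} [NormedAddCommGroup X] [NormedSpace 𝕜 X]
  {S : Type*} [MeasurableSpace S] (ν : Measure S)

lemma coord_integrable (n : ℕ) : Integrable (fun ω : ℕ → ℝ => ((ω n : ℝ) : 𝕜)) PrL := by
  have h : Integrable (fun ω : ℕ → ℝ => ω n) PrL :=
    (PrL_eval n).integrable_comp_of_integrable par_id_integrable
  exact h.ofReal

lemma mulC_integrable (n : ℕ) (f : Lp X 1 ν) :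
    Integrable (fun z : (ℕ → ℝ) × S => ((z.1 n : ℝ) : 𝕜) • (f : S → X) z.2) (PrL.prod ν) :=
  (coord_integrable n).smul_prod (L1.integrable_coeFn f)

/-- Multiplication by the coordinate `n`. -/
noncomputable def mulC (𝕜 : Type*) [RCLike 𝕜] {X : Type*} [NormedAddCommGroup X]
    [NormedSpace 𝕜 X] {S : Type*} [MeasurableSpace S] (ν : Measure S) [SFinite ν] (n : ℕ) :
    Lp X 1 ν →ₗ[𝕜] Lp X 1 (PrL.prod ν) where
  toFun f := (mulC_integrable (𝕜 := 𝕜) ν n f).toL1 _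
  map_add' f g := by
    apply Lp.ext
    have h1 : ∀ᵐ z ∂(PrL.prod ν), ((f + g : Lp X 1 ν) : S → X) z.2
        = (f : S → X) z.2 + (g : S → X) z.2 :=
      Measure.quasiMeasurePreserving_snd.ae (Lp.coeFn_add f g)
    filter_upwards [h1, (mulC_integrable (𝕜 := 𝕜) ν n (f + g)).coeFn_toL1,
      (mulC_integrable (𝕜 := 𝕜) ν n f).coeFn_toL1, (mulC_integrable (𝕜 := 𝕜) ν n g).coeFn_toL1,
      Lp.coeFn_add ((mulC_integrable (𝕜 := 𝕜) ν n f).toL1 _)
        ((mulC_integrable (𝕜 := 𝕜) ν n g).toL1 _)] with z a1 a2 a3 a4 a5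
    rw [a5, Pi.add_apply, a2, a3, a4, a1, smul_add]
  map_smul' c f := by
    apply Lp.ext
    have h1 : ∀ᵐ z ∂(PrL.prod ν), ((c • f : Lp X 1 ν) : S → X) z.2
        = c • (f : S → X) z.2 :=
      Measure.quasiMeasurePreserving_snd.ae (Lp.coeFn_smul c f)
    filter_upwards [h1, (mulC_integrable (𝕜 := 𝕜) ν n (c • f)).coeFn_toL1,
      (mulC_integrable (𝕜 := 𝕜) ν n f).coeFn_toL1,
      Lp.coeFn_smul c ((mulC_integrable (𝕜 := 𝕜) ν n f).toL1 _)] with z a1 a2 a3 a4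
    simp only [RingHom.id_apply]
    rw [a4, Pi.smul_apply, a2, a3, a1, smul_comm]

lemma mulC_ae [SFinite ν] (n : ℕ) (f : Lp X 1 ν) :
    ∀ᵐ z ∂(PrL.prod ν), (mulC 𝕜 ν n f : (ℕ → ℝ) × S → X) z
      = ((z.1 n : ℝ) : 𝕜) • (f : S → X) z.2 :=
  (mulC_integrable (𝕜 := 𝕜) ν n f).coeFn_toL1

/-- The map on finitely supported sequences. -/
noncomputable def T0 [SFinite ν] (J : ℕ → X →ₗ[𝕜] Lp X 1 ν) : (ℕ →₀ X) →ₗ[𝕜] Lp X 1 (PrL.prod ν) :=
  Finsupp.lsum ℕ (fun n => (mulC 𝕜 ν n).comp (J n))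

lemma norm_T0 [SFinite ν] (J : ℕ → X →ₗ[𝕜] Lp X 1 ν) (x : ℕ →₀ X) :
    ‖T0 ν J x‖ = ∫ ω, ‖∑ n ∈ x.support, ((ω n : ℝ) : 𝕜) • J n (x n)‖ ∂PrL := by
  have e1 : T0 ν J x = ∑ n ∈ x.support, mulC 𝕜 ν n (J n (x n)) := by
    rw [T0, Finsupp.lsum_apply, Finsupp.sum]
    rfl
  have h1 : ∀ᵐ z ∂(PrL.prod ν), (T0 ν J x : (ℕ → ℝ) × S → X) z
      = ∑ n ∈ x.support, ((z.1 n : ℝ) : 𝕜) • (J n (x n) : S → X) z.2 := by
    rw [e1]
    have a1 := Lp.coeFn_fun_finsetSum x.support (fun n => mulC 𝕜 ν n (J n (x n)))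
    have a2 : ∀ᵐ z ∂(PrL.prod ν), ∀ n ∈ x.support,
        (mulC 𝕜 ν n (J n (x n)) : (ℕ → ℝ) × S → X) z
          = ((z.1 n : ℝ) : 𝕜) • (J n (x n) : S → X) z.2 :=
      (Finset.eventually_all x.support).2 (fun n _ => mulC_ae ν n _)
    filter_upwards [a1, a2] with z b1 b2
    rw [b1]
    exact Finset.sum_congr rfl b2
  have hint : Integrable (fun z : (ℕ → ℝ) × S =>
      ∑ n ∈ x.support, ((z.1 n : ℝ) : 𝕜) • (J n (x n) : S → X) z.2) (PrL.prod ν) :=
    integrable_finsetSum _ (fun n _ => mulC_integrable ν n _)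
  rw [L1.norm_eq_integral_norm]
  have h2 : ∫ z, ‖(T0 ν J x : (ℕ → ℝ) × S → X) z‖ ∂(PrL.prod ν)
      = ∫ z, ‖∑ n ∈ x.support, ((z.1 n : ℝ) : 𝕜) • (J n (x n) : S → X) z.2‖ ∂(PrL.prod ν) := by
    apply integral_congr_ae
    filter_upwards [h1] with z hz
    rw [hz]
  rw [h2, integral_prod _ hint.norm]
  apply integral_congr_ae
  refine Filter.Eventually.of_forall (fun ω => ?_)
  show ∫ s, ‖∑ n ∈ x.support, ((ω n : ℝ) : 𝕜) • (J n (x n) : S → X) s‖ ∂ν
    = ‖∑ n ∈ x.support, ((ω n : ℝ) : 𝕜) • J n (x n)‖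
  rw [L1.norm_eq_integral_norm]
  apply integral_congr_ae
  have a1 := Lp.coeFn_fun_finsetSum x.support (fun n => ((ω n : ℝ) : 𝕜) • J n (x n))
  have a2 : ∀ᵐ s ∂ν, ∀ n ∈ x.support,
      ((((ω n : ℝ) : 𝕜) • J n (x n) : Lp X 1 ν) : S → X) s
        = ((ω n : ℝ) : 𝕜) • (J n (x n) : S → X) s :=
    (Finset.eventually_all x.support).2 (fun n _ => Lp.coeFn_smul _ _)
  filter_upwards [a1, a2] with s b1 b2
  rw [b1]
  congr 1
  exact (Finset.sum_congr rfl b2).symm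

/-- The probability that all the products stay below `1`. -/
lemma prob_small (s : Finset ℕ) (a : ℕ → ℝ) (ha : ∀ n ∈ s, 0 < a n) (h1 : ∑ n ∈ s, a n ^ 2 = 1) :
    PrL.real {ω | ∀ n ∈ s, ω n * a n ≤ 1} ≤ 1 / 2 := by
  have hle : ∀ n ∈ s, a n ≤ 1 := by
    intro n hn
    have : a n ^ 2 ≤ 1 := by
      rw [← h1]
      exact Finset.single_le_sum (f := fun n => a n ^ 2) (fun m _ => sq_nonneg _) hn
    nlinarith [ha n hn]
  have e1 : {ω : ℕ → ℝ | ∀ n ∈ s, ω n * a n ≤ 1} = Set.pi (s : Set ℕ) (fun n => Iic (1 / a n)) := by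
    ext ω
    simp only [mem_ofPred_eq, Set.mem_pi, Finset.mem_coe, mem_Iic]
    refine forall₂_congr (fun n hn => ?_)
    rw [le_div_iff₀ (ha n hn)]
  have e2 : PrL {ω : ℕ → ℝ | ∀ n ∈ s, ω n * a n ≤ 1} = ∏ n ∈ s, par (Iic (1 / a n)) := by
    rw [e1]
    unfold PrL
    exact Measure.infinitePi_pi _ (fun n _ => measurableSet_Iic)
  have e3 : ∀ n ∈ s, par (Iic (1 / a n)) = ENNReal.ofReal (1 - a n ^ 2) := by
    intro n hn
    rw [par_Iic (by rw [le_div_iff₀ (ha n hn)]; linarith [hle n hn])]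
    congr 2
    have := (ha n hn).ne'
    field_simp
  have e4 : ∏ n ∈ s, par (Iic (1 / a n)) = ENNReal.ofReal (∏ n ∈ s, (1 - a n ^ 2)) := by
    rw [ENNReal.ofReal_prod_of_nonneg, Finset.prod_congr rfl e3]
    intro n hn
    have := hle n hn
    have := ha n hn
    nlinarith
  have h2 : ∏ n ∈ s, (1 - a n ^ 2) ≤ Real.exp (-1) := by
    calc ∏ n ∈ s, (1 - a n ^ 2) ≤ ∏ n ∈ s, Real.exp (-(a n ^ 2)) := by
          apply Finset.prod_le_prod
          · intro n hn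
            have := hle n hn
            have := ha n hn
            nlinarith
          · intro n hn
            have := Real.add_one_le_exp (-(a n ^ 2))
            linarith
      _ = Real.exp (-1) := by
          rw [← Real.exp_sum, Finset.sum_neg_distrib, h1]
  have h3 : Real.exp (-1) ≤ 1 / 2 := by
    rw [Real.exp_neg, inv_le_comm₀ (Real.exp_pos _) (by norm_num)]
    have := Real.add_one_le_exp (1:ℝ)
    norm_num at this ⊢
    exact this
  have h0 : 0 ≤ ∏ n ∈ s, (1 - a n ^ 2) := by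
    apply Finset.prod_nonneg
    intro n hn
    have := hle n hn
    have := ha n hn
    nlinarith
  rw [Measure.real, e2, e4, ENNReal.toReal_ofReal h0]
  exact h2.trans h3

/-- The hypotheses on the family `J`. -/
structure Good (J : ℕ → X →ₗ[𝕜] Lp X 1 ν) (c C : ℝ) (h : ℝ → ℝ) : Prop where
  cpos : 0 < c
  h0 : ∀ s, 0 ≤ h s
  hi : IntegrableOn (fun s => h s / s ^ 3) (Ioi 0)
  low : ∀ (x : ℕ →₀ X) (n : ℕ), c * ‖x n‖ ≤ ‖x.sum (fun m v => J m v)‖
  up : ∀ x : ℕ →₀ X, ‖x.sum (fun m v => J m v)‖ ≤ C + x.sum (fun _ v => h ‖v‖)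

variable {ν}

lemma scaled_sum (J : ℕ → X →ₗ[𝕜] Lp X 1 ν) (x : ℕ →₀ X) (ω : ℕ → ℝ) (hω : ∀ n, 1 < ω n) :
    ∃ y : ℕ →₀ X, y.support = x.support ∧ (∀ n, y n = ((ω n : ℝ) : 𝕜) • x n) ∧
      y.sum (fun m v => J m v) = ∑ n ∈ x.support, ((ω n : ℝ) : 𝕜) • J n (x n) := by
  classical
  have hne : ∀ n, ((ω n : ℝ) : 𝕜) ≠ 0 := fun n => by
    have := hω n
    exact_mod_cast (by linarith : ω n ≠ 0)
  let y : ℕ →₀ X := Finsupp.onFinset x.support (fun n => ((ω n : ℝ) : 𝕜) • x n) (by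
    intro n hn
    rw [Finsupp.mem_support_iff]
    intro h0
    apply hn
    rw [h0, smul_zero])
  have hy : ∀ n, y n = ((ω n : ℝ) : 𝕜) • x n := fun n => rfl
  have hs : y.support = x.support := by
    ext n
    rw [Finsupp.mem_support_iff, Finsupp.mem_support_iff, hy, Ne, smul_eq_zero, not_or]
    exact ⟨fun h => h.2, fun h => ⟨hne n, h⟩⟩
  refine ⟨y, hs, hy, ?_⟩
  rw [Finsupp.sum, hs]
  refine Finset.sum_congr rfl (fun n _ => ?_)
  rw [hy, map_smul]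

lemma PrL_gt_one : ∀ᵐ ω ∂PrL, ∀ n, 1 < ω n := by
  rw [ae_all_iff]
  intro n
  exact (PrL_eval n).quasiMeasurePreserving.ae par_gt_one

lemma G_integrable (J : ℕ → X →ₗ[𝕜] Lp X 1 ν) (x : ℕ →₀ X) :
    Integrable (fun ω : ℕ → ℝ => ‖∑ n ∈ x.support, ((ω n : ℝ) : 𝕜) • J n (x n)‖) PrL := by
  apply Integrable.norm
  apply integrable_finsetSum
  intro n _
  exact (coord_integrable n).smul_const _

lemma upper_T0 [SFinite ν] {J : ℕ → X →ₗ[𝕜] Lp X 1 ν} {c C : ℝ} {h : ℝ → ℝ} (hg : Good ν J c C h)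
    (x : ℕ →₀ X) (hx : ∑ n ∈ x.support, ‖x n‖ ^ 2 = 1) :
    ‖T0 ν J x‖ ≤ C + 2 * ∫ s in Ioi (0:ℝ), h s / s ^ 3 := by
  have hpos : ∀ n ∈ x.support, 0 < ‖x n‖ := fun n hn =>
    norm_pos_iff.2 (Finsupp.mem_support_iff.1 hn)
  have hI : ∀ n ∈ x.support, Integrable (fun ω : ℕ → ℝ => h (ω n * ‖x n‖)) PrL := fun n hn =>
    (PrL_eval n).integrable_comp_of_integrable (par_h hg.h0 hg.hi (hpos n hn)).1
  have hE : ∀ n ∈ x.support, ∫ ω : ℕ → ℝ, h (ω n * ‖x n‖) ∂PrL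
      ≤ 2 * ‖x n‖ ^ 2 * ∫ s in Ioi (0:ℝ), h s / s ^ 3 := by
    intro n hn
    have e : ∫ ω : ℕ → ℝ, h (ω n * ‖x n‖) ∂PrL = ∫ s, h (s * ‖x n‖) ∂par := by
      rw [← (PrL_eval n).map_eq, integral_map (PrL_eval n).measurable.aemeasurable]
      rw [(PrL_eval n).map_eq]
      exact (par_h hg.h0 hg.hi (hpos n hn)).1.aestronglyMeasurable
    rw [e]
    exact (par_h hg.h0 hg.hi (hpos n hn)).2
  rw [norm_T0]
  calc ∫ ω, ‖∑ n ∈ x.support, ((ω n : ℝ) : 𝕜) • J n (x n)‖ ∂PrL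
      ≤ ∫ ω : ℕ → ℝ, (C + ∑ n ∈ x.support, h (ω n * ‖x n‖)) ∂PrL := by
        apply integral_mono_ae (G_integrable J x)
        · exact (integrable_const C).add (integrable_finsetSum _ hI)
        · filter_upwards [PrL_gt_one] with ω hω
          obtain ⟨y, hs, hy, hsum⟩ := scaled_sum J x ω hω
          rw [← hsum]
          refine (hg.up y).trans (le_of_eq ?_)
          rw [Finsupp.sum, hs]
          congr 1
          refine Finset.sum_congr rfl (fun n _ => ?_)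
          rw [hy, norm_smul, RCLike.norm_ofReal, abs_of_pos (lt_trans one_pos (hω n))]
    _ = C + ∑ n ∈ x.support, ∫ ω : ℕ → ℝ, h (ω n * ‖x n‖) ∂PrL := by
        rw [integral_add (integrable_const C) (integrable_finsetSum _ hI),
          integral_finsetSum _ hI]
        simp
    _ ≤ C + ∑ n ∈ x.support, 2 * ‖x n‖ ^ 2 * ∫ s in Ioi (0:ℝ), h s / s ^ 3 := by
        have := Finset.sum_le_sum hE
        linarith
    _ = C + 2 * ∫ s in Ioi (0:ℝ), h s / s ^ 3 := by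
        rw [← Finset.sum_mul, ← Finset.mul_sum, hx, mul_one]

lemma lower_T0 [SFinite ν] {J : ℕ → X →ₗ[𝕜] Lp X 1 ν} {c C : ℝ} {h : ℝ → ℝ} (hg : Good ν J c C h)
    (x : ℕ →₀ X) (hx : ∑ n ∈ x.support, ‖x n‖ ^ 2 = 1) :
    c / 2 ≤ ‖T0 ν J x‖ := by
  have hpos : ∀ n ∈ x.support, 0 < ‖x n‖ := fun n hn =>
    norm_pos_iff.2 (Finsupp.mem_support_iff.1 hn)
  set A : Set (ℕ → ℝ) := {ω | ∀ n ∈ x.support, ω n * ‖x n‖ ≤ 1} with hA
  have hAm : MeasurableSet A := by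
    have : A = ⋂ n ∈ x.support, {ω : ℕ → ℝ | ω n * ‖x n‖ ≤ 1} := by
      ext ω; simp [hA]
    rw [this]
    refine Finset.measurableSet_biInter _ (fun n _ => ?_)
    exact measurableSet_le (by fun_prop) measurable_const
  have hp := prob_small x.support (fun n => ‖x n‖) hpos hx
  have hc : 1 / 2 ≤ PrL.real Aᶜ := by
    have := probReal_compl_eq_one_sub (μ := PrL) hAm
    rw [this]
    linarith
  rw [norm_T0]
  calc c / 2 ≤ c * PrL.real Aᶜ := by nlinarith [hg.cpos]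
    _ = ∫ ω, Aᶜ.indicator (fun _ => c) ω ∂PrL := by
        rw [integral_indicator_const _ hAm.compl, smul_eq_mul, mul_comm]
    _ ≤ _ := by
        apply integral_mono_ae
        · exact (integrable_const c).indicator hAm.compl
        · exact G_integrable J x
        · filter_upwards [PrL_gt_one] with ω hω
          by_cases hmem : ω ∈ Aᶜ
          · rw [indicator_of_mem hmem]
            simp only [hA, mem_compl_iff, mem_ofPred_eq, not_forall, not_le] at hmem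
            obtain ⟨n, hn, hlt⟩ := hmem
            obtain ⟨y, hs, hy, hsum⟩ := scaled_sum J x ω hω
            rw [← hsum]
            refine le_trans ?_ (hg.low y n)
            rw [hy, norm_smul, RCLike.norm_ofReal, abs_of_pos (lt_trans one_pos (hω n))]
            nlinarith [hg.cpos]
          · rw [indicator_of_notMem hmem]
            exact norm_nonneg _

end

end Pool.Agent.Lib.MP_cdd7b4_an.H85
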