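import Pool.Agent.Lib.MP_cdd7b4_an.H85.Scalar

set_option autoImplicit false

namespace Pool.Agent.Lib.MP_cdd7b4_an.H85

open MeasureTheory Set
open scoped BigOperators

/-- The mixing inequality for sums of independent symmetric vectors, with constant `K`. -/
def PP (K : ℝ) (Y : Type*) [NormedAddCommGroup Y] : Prop :=
  ∀ (κ : Type) [Fintype κ] (σ : κ → κ), Function.Involutive σ → ∀ N : ℕ, Even N →
    ∀ w : Fin N → κ → Y, (∀ n k, w n (σ k) = - w n k) →
    ∑ n, ∑ k : Fin N → κ, ‖∑ m, w n (k m)‖ ≤ K * N * ∑ k : Fin N → κ, ‖∑ n, w n (k n)‖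

lemma PP_real : PP 1 ℝ := by
  intro κ _ σ hσ N hN w hw
  have := scalar_ineq σ hσ hN w hw
  simpa only [Real.norm_eq_abs, one_mul] using this

lemma norm_le_re_im {𝕜 : Type*} [RCLike 𝕜] (z : 𝕜) : ‖z‖ ≤ |RCLike.re z| + |RCLike.im z| := by
  have h := RCLike.norm_sq_eq_def (z := z)
  have h1 := abs_nonneg (RCLike.re z)
  have h2 := abs_nonneg (RCLike.im z)
  apply le_of_sq_le_sq _ (by positivity)
  have h3 := sq_abs (RCLike.re z)
  have h4 := sq_abs (RCLike.im z)
  nlinarith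

lemma PP_rclike (𝕜 : Type*) [RCLike 𝕜] : PP 2 𝕜 := by
  intro κ _ σ hσ N hN w hw
  have h1 := scalar_ineq σ hσ hN (fun n k => RCLike.re (w n k)) (fun n k => by simp [hw])
  have h2 := scalar_ineq σ hσ hN (fun n k => RCLike.im (w n k)) (fun n k => by simp [hw])
  have h3 : ∑ n, ∑ k : Fin N → κ, ‖∑ m, w n (k m)‖
      ≤ ∑ n, ∑ k : Fin N → κ, |∑ m, RCLike.re (w n (k m))|
        + ∑ n, ∑ k : Fin N → κ, |∑ m, RCLike.im (w n (k m))| := by
    rw [← Finset.sum_add_distrib]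
    refine Finset.sum_le_sum (fun n _ => ?_)
    rw [← Finset.sum_add_distrib]
    refine Finset.sum_le_sum (fun k _ => ?_)
    rw [← map_sum, ← map_sum]
    exact norm_le_re_im _
  have h4 : ∑ k : Fin N → κ, |∑ n, RCLike.re (w n (k n))| ≤ ∑ k : Fin N → κ, ‖∑ n, w n (k n)‖ := by
    refine Finset.sum_le_sum (fun k _ => ?_)
    rw [← map_sum]
    exact RCLike.abs_re_le_norm _
  have h5 : ∑ k : Fin N → κ, |∑ n, RCLike.im (w n (k n))| ≤ ∑ k : Fin N → κ, ‖∑ n, w n (k n)‖ := by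
    refine Finset.sum_le_sum (fun k _ => ?_)
    rw [← map_sum]
    exact RCLike.abs_im_le_norm _
  have hN0 : (0:ℝ) ≤ N := Nat.cast_nonneg N
  have h6 := mul_le_mul_of_nonneg_left h4 hN0
  have h7 := mul_le_mul_of_nonneg_left h5 hN0
  linarith

lemma PP_Lp {K : ℝ} {Y : Type*} [NormedAddCommGroup Y] (h : PP K Y)
    {S : Type*} [MeasurableSpace S] (ν : Measure S) : PP K (Lp Y 1 ν) := by
  intro κ _ σ hσ N hN w hw
  classical
  have hint : ∀ f : Lp Y 1 ν, Integrable (fun a => ‖f a‖) ν := fun f => (L1.integrable_coeFn f).norm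
  -- rewrite norms as integrals
  have e1 : ∑ n, ∑ k : Fin N → κ, ‖∑ m, w n (k m)‖
      = ∫ a, ∑ n, ∑ k : Fin N → κ, ‖(∑ m, w n (k m) : Lp Y 1 ν) a‖ ∂ν := by
    rw [integral_finsetSum _ (fun n _ => integrable_finsetSum _ (fun k _ => hint _))]
    refine Finset.sum_congr rfl (fun n _ => ?_)
    rw [integral_finsetSum _ (fun k _ => hint _)]
    refine Finset.sum_congr rfl (fun k _ => ?_)
    exact L1.norm_eq_integral_norm _
  have e2 : K * N * ∑ k : Fin N → κ, ‖∑ n, w n (k n)‖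
      = ∫ a, K * N * ∑ k : Fin N → κ, ‖(∑ n, w n (k n) : Lp Y 1 ν) a‖ ∂ν := by
    rw [integral_const_mul, integral_finsetSum _ (fun k _ => hint _)]
    congr 1
    refine Finset.sum_congr rfl (fun k _ => ?_)
    exact L1.norm_eq_integral_norm _
  rw [e1, e2]
  apply integral_mono_ae
  · exact integrable_finsetSum _ (fun n _ => integrable_finsetSum _ (fun k _ => hint _))
  · exact (integrable_finsetSum _ (fun k _ => hint _)).const_mul _
  · have a1 : ∀ᵐ a ∂ν, ∀ n, ∀ k : Fin N → κ,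
        (∑ m, w n (k m) : Lp Y 1 ν) a = ∑ m, (w n (k m) : S → Y) a := by
      rw [ae_all_iff]; intro n
      rw [ae_all_iff]; intro k
      exact Lp.coeFn_fun_finsetSum _ _
    have a2 : ∀ᵐ a ∂ν, ∀ k : Fin N → κ,
        (∑ n, w n (k n) : Lp Y 1 ν) a = ∑ n, (w n (k n) : S → Y) a := by
      rw [ae_all_iff]; intro k
      exact Lp.coeFn_fun_finsetSum _ _
    have a3 : ∀ᵐ a ∂ν, ∀ n k, (w n (σ k) : S → Y) a = - (w n k : S → Y) a := by
      rw [ae_all_iff]; intro n
      rw [ae_all_iff]; intro k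
      rw [hw n k]
      exact Lp.coeFn_neg _
    filter_upwards [a1, a2, a3] with a b1 b2 b3
    simp only [b1, b2]
    exact h κ σ hσ N hN (fun n k => (w n k : S → Y) a) b3

end Pool.Agent.Lib.MP_cdd7b4_an.H85
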