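import Pool.Agent.Lib.MP_cdd7b4_an.H85.Transfer
import Pool.Agent.Lib.MP_cdd7b4_an.H85.Moments

set_option autoImplicit false

namespace Pool.Agent.Lib.MP_cdd7b4_an.H85

open MeasureTheory Set
open scoped BigOperators

/-- The symmetric family attached to `y`. -/
def sv {ι Y : Type*} [Neg Y] (y : ι → Y) (p : ι × Bool) : Y := if p.2 then y p.1 else - y p.1

/-- flipping the sign. -/
def flp {ι : Type*} (p : ι × Bool) : ι × Bool := (p.1, !p.2)

lemma flp_inv {ι : Type*} : Function.Involutive (flp (ι := ι)) := by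
  intro p; simp [flp]

lemma sv_flp {ι Y : Type*} [AddCommGroup Y] (y : ι → Y) (p : ι × Bool) :
    sv y (flp p) = - sv y p := by
  rcases p with ⟨i, b⟩
  cases b <;> simp [sv, flp]

lemma sum_sv {ι Y R : Type*} [Fintype ι] [AddCommGroup Y] [AddCommMonoid R] (y : ι → Y)
    (g : Y → R) : ∑ p, g (sv y p) = ∑ j, (g (y j) + g (- y j)) := by
  rw [Fintype.sum_prod_type]
  refine Finset.sum_congr rfl (fun j _ => ?_)
  simp [sv]

lemma sum_coord {κ : Type*} [Fintype κ] (g : κ → ℝ) (N : ℕ) :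
    (Fintype.card κ : ℝ) * ∑ k : Fin N → κ, ∑ m, g (k m)
      = N * (∑ x, g x) * (Fintype.card κ : ℝ) ^ N := by
  induction N with
  | zero => simp
  | succ N ih =>
    have := sum_cons g N (fun s => s)
    rw [this]
    simp only [Finset.sum_add_distrib, Finset.sum_const, Finset.card_univ, nsmul_eq_mul,
      Fintype.card_pi, Finset.prod_const, Fintype.card_fin]
    rw [ih, ← Finset.mul_sum]
    push_cast
    ring

section
variable {𝕜 : Type*} [RCLike 𝕜] {X : Type*} [NormedAddCommGroup X] [NormedSpace 𝕜 X]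

theorem stepC {K : ℝ} (hK : 0 ≤ K) {W : Type*} [NormedAddCommGroup W] [NormedSpace 𝕜 W]
    (hW : PP K W)
    (T : lp (fun _ : ℕ => X) 2 →L[𝕜] W) {c : ℝ}
    (hT : ∀ z, c * ‖z‖ ≤ ‖T z‖) {M : ℕ} (y : Fin M → X) :
    c * ∑ k : Fin (2 * M) → (Fin M × Bool), ‖∑ m, sv y (k m)‖
      ≤ K * ‖T‖ * ((2 * M : ℕ) : ℝ) ^ (2 * M) * Real.sqrt (2 * ∑ j, ‖y j‖ ^ 2) := by
  classical
  rcases Nat.eq_zero_or_pos M with rfl | hM
  · simp
  set N := 2 * M with hN
  have hNpos : (0:ℝ) < N := by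
    rw [hN]; push_cast; have : (0:ℝ) < M := by exact_mod_cast hM
    positivity
  have hcard : Fintype.card (Fin M × Bool) = N := by simp [hN, mul_comm]
  set w : Fin N → (Fin M × Bool) → W := fun n p => T (lp.single 2 (n:ℕ) (sv y p)) with hw
  have h1 := hW (Fin M × Bool) flp flp_inv N (by simp [hN]) w (by
    intro n p
    simp only [hw, sv_flp, lp.single_neg, map_neg])
  -- lower bound of the left side
  have h2 : (N:ℝ) * (c * ∑ k : Fin N → (Fin M × Bool), ‖∑ m, sv y (k m)‖)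
      ≤ ∑ n, ∑ k : Fin N → (Fin M × Bool), ‖∑ m, w n (k m)‖ := by
    have : ∀ n : Fin N, c * ∑ k : Fin N → (Fin M × Bool), ‖∑ m, sv y (k m)‖
        ≤ ∑ k : Fin N → (Fin M × Bool), ‖∑ m, w n (k m)‖ := by
      intro n
      rw [Finset.mul_sum]
      refine Finset.sum_le_sum (fun k _ => ?_)
      have e : ∑ m, w n (k m) = T (lp.single 2 (n:ℕ) (∑ m, sv y (k m))) := by
        simp only [hw]
        rw [← map_sum]
        congr 1
        exact (map_sum (lp.singleAddMonoidHom (E := fun _ : ℕ => X) 2 (n:ℕ)) _ _).symm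
      rw [e]
      refine le_trans (le_of_eq ?_) (hT _)
      rw [lp.norm_single (by norm_num)]
    calc (N:ℝ) * (c * ∑ k : Fin N → (Fin M × Bool), ‖∑ m, sv y (k m)‖)
        = ∑ n : Fin N, c * ∑ k : Fin N → (Fin M × Bool), ‖∑ m, sv y (k m)‖ := by
          simp
      _ ≤ _ := Finset.sum_le_sum (fun n _ => this n)
  -- upper bound of the right side
  have h3 : ∑ k : Fin N → (Fin M × Bool), ‖∑ n, w n (k n)‖
      ≤ ‖T‖ * ((N:ℝ) ^ N * Real.sqrt (2 * ∑ j, ‖y j‖ ^ 2)) := by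
    have a1 : ∀ k : Fin N → (Fin M × Bool), ‖∑ n, w n (k n)‖
        ≤ ‖T‖ * Real.sqrt (∑ n, ‖sv y (k n)‖ ^ 2) := by
      intro k
      have e : ∑ n, w n (k n) = T (∑ n : Fin N, lp.single 2 (n:ℕ) (sv y (k n))) := by
        simp only [hw]
        rw [map_sum]
      rw [e]
      refine (T.le_opNorm _).trans (mul_le_mul_of_nonneg_left ?_ (norm_nonneg _))
      -- the norm of the finite sum
      have e2 : ∑ n : Fin N, lp.single (E := fun _ : ℕ => X) 2 (n:ℕ) (sv y (k n))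
          = ∑ i ∈ Finset.range N, lp.single (E := fun _ : ℕ => X) 2 i
              (if h : i < N then sv y (k ⟨i, h⟩) else 0) := by
        rw [Finset.sum_range]
        refine Finset.sum_congr rfl (fun n _ => ?_)
        simp
      have e3 := lp.norm_sum_single (E := fun _ : ℕ => X) (p := 2) (by norm_num)
        (fun i => if h : i < N then sv y (k ⟨i, h⟩) else 0) (Finset.range N)
      rw [← e2, Finset.sum_range] at e3
      simp only [ENNReal.toReal_ofNat, Real.rpow_ofNat, Fin.is_lt, dite_true, Fin.eta] at e3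
      rw [← e3, Real.sqrt_sq (norm_nonneg _)]
    refine (Finset.sum_le_sum (fun k _ => a1 k)).trans ?_
    rw [← Finset.mul_sum]
    refine mul_le_mul_of_nonneg_left ?_ (norm_nonneg _)
    -- Cauchy-Schwarz
    have a2 : (∑ k : Fin N → (Fin M × Bool), Real.sqrt (∑ n, ‖sv y (k n)‖ ^ 2)) ^ 2
        ≤ ((N:ℝ) ^ N) * ∑ k : Fin N → (Fin M × Bool), ∑ n, ‖sv y (k n)‖ ^ 2 := by
      have := sq_sum_le_card_mul_sum_sq (s := (Finset.univ : Finset (Fin N → (Fin M × Bool))))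
        (f := fun k => Real.sqrt (∑ n, ‖sv y (k n)‖ ^ 2))
      refine this.trans (le_of_eq ?_)
      congr 1
      · rw [Finset.card_univ, Fintype.card_pi, Finset.prod_const, Finset.card_univ,
          Fintype.card_fin, hcard]
        push_cast
        rfl
      · refine Finset.sum_congr rfl (fun k _ => ?_)
        rw [Real.sq_sqrt (Finset.sum_nonneg (fun n _ => sq_nonneg _))]
    have a3 : ∑ k : Fin N → (Fin M × Bool), ∑ n, ‖sv y (k n)‖ ^ 2
        = (2 * ∑ j, ‖y j‖ ^ 2) * (N:ℝ) ^ N := by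
      have b1 := sum_coord (κ := Fin M × Bool) (fun p => ‖sv y p‖ ^ 2) N
      rw [hcard] at b1
      have b2 : ∑ p : Fin M × Bool, ‖sv y p‖ ^ 2 = 2 * ∑ j, ‖y j‖ ^ 2 := by
        rw [sum_sv y (fun v => ‖v‖ ^ 2), Finset.mul_sum]
        refine Finset.sum_congr rfl (fun j _ => ?_)
        rw [norm_neg]; ring
      rw [b2] at b1
      have : (N:ℝ) * ∑ k : Fin N → (Fin M × Bool), ∑ n, ‖sv y (k n)‖ ^ 2
          = N * ((2 * ∑ j, ‖y j‖ ^ 2) * (N:ℝ) ^ N) := by rw [b1]; ring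
      exact mul_left_cancel₀ hNpos.ne' this
    rw [a3] at a2
    have a4 : (∑ k : Fin N → (Fin M × Bool), Real.sqrt (∑ n, ‖sv y (k n)‖ ^ 2)) ^ 2
        ≤ ((N:ℝ) ^ N * Real.sqrt (2 * ∑ j, ‖y j‖ ^ 2)) ^ 2 := by
      rw [mul_pow, Real.sq_sqrt (by positivity)]
      refine a2.trans (le_of_eq (by ring))
    exact le_of_sq_le_sq a4 (by positivity)
  have h4 : (N:ℝ) * (c * ∑ k : Fin N → (Fin M × Bool), ‖∑ m, sv y (k m)‖)
      ≤ N * (K * ‖T‖ * (N:ℝ) ^ N * Real.sqrt (2 * ∑ j, ‖y j‖ ^ 2)) := by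
    calc _ ≤ _ := h2
      _ ≤ K * N * ∑ k : Fin N → (Fin M × Bool), ‖∑ n, w n (k n)‖ := h1
      _ ≤ K * N * (‖T‖ * ((N:ℝ) ^ N * Real.sqrt (2 * ∑ j, ‖y j‖ ^ 2))) :=
          mul_le_mul_of_nonneg_left h3 (by positivity)
      _ = _ := by ring
  exact le_of_mul_le_mul_left h4 hNpos

lemma sqrt_add_le (a b : ℝ) (ha : 0 ≤ a) (hb : 0 ≤ b) :
    Real.sqrt (a + b) ≤ Real.sqrt a + Real.sqrt b := by
  rw [Real.sqrt_le_left (by positivity)]
  have h1 := Real.sq_sqrt ha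
  have h2 := Real.sq_sqrt hb
  have h3 := Real.sqrt_nonneg a
  have h4 := Real.sqrt_nonneg b
  nlinarith

/-- pointwise lower bound. -/
lemma lower_rclike {M : ℕ} (b : Fin M → 𝕜) :
    Real.sqrt 2 / 4 * ((2 * M : ℕ) : ℝ) ^ (2 * M) * Real.sqrt (∑ j, ‖b j‖ ^ 2)
      ≤ ∑ k : Fin (2 * M) → (Fin M × Bool), ‖∑ m, sv b (k m)‖ := by
  classical
  have hcard : (2 * M) = Fintype.card (Fin M × Bool) := by simp [mul_comm]
  have h1 := lower_ineq (κ := Fin M × Bool) (fun p => RCLike.re (sv b p)) flp flp_inv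
    (fun p => by simp [sv_flp]) hcard
  have h2 := lower_ineq (κ := Fin M × Bool) (fun p => RCLike.im (sv b p)) flp flp_inv
    (fun p => by simp [sv_flp]) hcard
  have h3 : ∑ p : Fin M × Bool, RCLike.re (sv b p) ^ 2 = 2 * ∑ j, RCLike.re (b j) ^ 2 := by
    rw [sum_sv b (fun v => RCLike.re v ^ 2), Finset.mul_sum]
    refine Finset.sum_congr rfl (fun j _ => ?_)
    rw [map_neg]; ring
  have h4 : ∑ p : Fin M × Bool, RCLike.im (sv b p) ^ 2 = 2 * ∑ j, RCLike.im (b j) ^ 2 := by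
    rw [sum_sv b (fun v => RCLike.im v ^ 2), Finset.mul_sum]
    refine Finset.sum_congr rfl (fun j _ => ?_)
    rw [map_neg]; ring
  rw [h3] at h1
  rw [h4] at h2
  have h5 : ∑ k : Fin (2 * M) → (Fin M × Bool), |∑ m, RCLike.re (sv b (k m))|
      ≤ ∑ k : Fin (2 * M) → (Fin M × Bool), ‖∑ m, sv b (k m)‖ := by
    refine Finset.sum_le_sum (fun k _ => ?_)
    rw [← map_sum]; exact RCLike.abs_re_le_norm _
  have h6 : ∑ k : Fin (2 * M) → (Fin M × Bool), |∑ m, RCLike.im (sv b (k m))|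
      ≤ ∑ k : Fin (2 * M) → (Fin M × Bool), ‖∑ m, sv b (k m)‖ := by
    refine Finset.sum_le_sum (fun k _ => ?_)
    rw [← map_sum]; exact RCLike.abs_im_le_norm _
  have hsub : Real.sqrt 2 * Real.sqrt (∑ j, ‖b j‖ ^ 2)
      ≤ Real.sqrt (2 * ∑ j, RCLike.re (b j) ^ 2) + Real.sqrt (2 * ∑ j, RCLike.im (b j) ^ 2) := by
    rw [← Real.sqrt_mul (by norm_num)]
    have e : 2 * ∑ j, ‖b j‖ ^ 2 = 2 * ∑ j, RCLike.re (b j) ^ 2 + 2 * ∑ j, RCLike.im (b j) ^ 2 := by
      rw [← mul_add, ← Finset.sum_add_distrib]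
      congr 1
      refine Finset.sum_congr rfl (fun j _ => ?_)
      rw [RCLike.norm_sq_eq_def]; ring
    rw [e]
    exact sqrt_add_le _ _ (by positivity) (by positivity)
  have hP : (0:ℝ) ≤ ((2 * M : ℕ) : ℝ) ^ (2 * M) := by positivity
  have h7 := mul_le_mul_of_nonneg_left hsub hP
  calc Real.sqrt 2 / 4 * ((2 * M : ℕ) : ℝ) ^ (2 * M) * Real.sqrt (∑ j, ‖b j‖ ^ 2)
      = 1 / 4 * (((2 * M : ℕ) : ℝ) ^ (2 * M) * (Real.sqrt 2 * Real.sqrt (∑ j, ‖b j‖ ^ 2))) := by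
        ring
    _ ≤ 1 / 4 * (((2 * M : ℕ) : ℝ) ^ (2 * M) * (Real.sqrt (2 * ∑ j, RCLike.re (b j) ^ 2)
          + Real.sqrt (2 * ∑ j, RCLike.im (b j) ^ 2))) := by linarith
    _ ≤ ∑ k : Fin (2 * M) → (Fin M × Bool), ‖∑ m, sv b (k m)‖ := by
        nlinarith

end

end Pool.Agent.Lib.MP_cdd7b4_an.H85
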